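import Mathlib

/-!
Averages of functions over arithmetic progressions, and the product structure.
-/

namespace Pool.Agent.DivGap

open Finset

/-- `f` has the average `e` on all arithmetic progressions whose modulus is coprime to `Q`, with
error at most `K` -/
def AP (f : ℕ → ℝ) (Q : ℕ) (e K : ℝ) : Prop :=
  ∀ M r a Z : ℕ, 0 < M → Nat.Coprime M Q →
    |(∑ x ∈ Ico a (a + Z), if x ≡ r [MOD M] then f x else 0) - Z * e / M| ≤ K

/-- multiplication by `g` multiplies averages by `e` and errors by `K` -/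
def Mult (g : ℕ → ℝ) (Q' : ℕ) (e K : ℝ) : Prop :=
  ∀ (f : ℕ → ℝ) (Q : ℕ) (e1 K1 : ℝ), Nat.Coprime Q Q' → AP f Q e1 K1 →
    AP (fun x => f x * g x) (Q * Q') (e1 * e) (K1 * K)

theorem AP.mono_right {f : ℕ → ℝ} {Q Q' : ℕ} {e K : ℝ} (h : AP f Q e K) (hQ : Q ∣ Q') :
    AP f Q' e K :=
  fun M r a Z hM hc => h M r a Z hM (Nat.Coprime.coprime_dvd_right hQ hc)

theorem ap_one : AP (fun _ => 1) 1 1 1 := by
  intro M r a Z hM _
  have hMr : (0 : ℝ) < M := by exact_mod_cast hM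
  have hMq : (0 : ℚ) < M := by exact_mod_cast hM
  rw [← Finset.sum_filter, Finset.sum_const, nsmul_eq_mul, mul_one, mul_one]
  have h1 := Nat.Ico_filter_modEq_card (a := a) (b := a + Z) (r := M) hM r
  have hnn : ⌈(((a : ℕ) : ℚ) - r) / (M : ℚ)⌉ ≤ ⌈(((a + Z : ℕ) : ℚ) - r) / (M : ℚ)⌉ := by
    apply Int.ceil_le_ceil
    apply div_le_div_of_nonneg_right _ hMq.le
    push_cast
    linarith [Nat.cast_nonneg (α := ℚ) Z]
  have h2 : (((Ico a (a + Z)).filter (fun x => x ≡ r [MOD M])).card : ℤ) =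
      ⌈(((a + Z : ℕ) : ℚ) - r) / (M : ℚ)⌉ - ⌈(((a : ℕ) : ℚ) - r) / (M : ℚ)⌉ := by
    rw [h1]
    apply max_eq_left
    omega
  have h3 : (((Ico a (a + Z)).filter (fun x => x ≡ r [MOD M])).card : ℚ) =
      (⌈(((a + Z : ℕ) : ℚ) - r) / (M : ℚ)⌉ : ℚ) - (⌈(((a : ℕ) : ℚ) - r) / (M : ℚ)⌉ : ℚ) := by
    exact_mod_cast h2
  have h4 := Int.ceil_lt_add_one ((((a + Z : ℕ) : ℚ) - r) / (M : ℚ))
  have h5 := Int.le_ceil ((((a + Z : ℕ) : ℚ) - r) / (M : ℚ))
  have h6 := Int.ceil_lt_add_one ((((a : ℕ) : ℚ) - r) / (M : ℚ))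
  have h7 := Int.le_ceil ((((a : ℕ) : ℚ) - r) / (M : ℚ))
  have h8 : ((((a + Z : ℕ) : ℚ) - r) / (M : ℚ)) - ((((a : ℕ) : ℚ) - r) / (M : ℚ)) =
      (Z : ℚ) / M := by
    push_cast
    field_simp
    ring
  have h9 : |(((Ico a (a + Z)).filter (fun x => x ≡ r [MOD M])).card : ℚ) - (Z : ℚ) / M| ≤ 1 := by
    rw [abs_le, h3]
    constructor <;> linarith
  have h10 : ((|(((Ico a (a + Z)).filter (fun x => x ≡ r [MOD M])).card : ℚ) - (Z : ℚ) / M| : ℚ) : ℝ)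
      ≤ ((1 : ℚ) : ℝ) := Rat.cast_le.mpr h9
  push_cast at h10
  exact h10

theorem mult_ind (m r : ℕ) (hm : 0 < m) :
    Mult (fun x => if x ≡ r [MOD m] then 1 else 0) m (1 / m) 1 := by
  intro f Q e1 K1 hQ hf M r0 a Z hM hc
  have hMm : Nat.Coprime M m := Nat.Coprime.coprime_dvd_right (dvd_mul_left m Q) hc
  have hMQ : Nat.Coprime M Q := Nat.Coprime.coprime_dvd_right (dvd_mul_right Q m) hc
  obtain ⟨k, hk1, hk2⟩ := Nat.chineseRemainder hMm r0 r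
  have h1 := hf (M * m) k a Z (Nat.mul_pos hM hm) (Nat.Coprime.mul_left hMQ hQ.symm)
  have h2 : (∑ x ∈ Ico a (a + Z), if x ≡ r0 [MOD M] then
      f x * (if x ≡ r [MOD m] then (1 : ℝ) else 0) else 0) =
      ∑ x ∈ Ico a (a + Z), if x ≡ k [MOD M * m] then f x else 0 := by
    apply Finset.sum_congr rfl
    intro x _
    have h3 : (x ≡ k [MOD M * m]) ↔ (x ≡ r0 [MOD M] ∧ x ≡ r [MOD m]) := by
      rw [← Nat.modEq_and_modEq_iff_modEq_mul hMm]
      constructor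
      · rintro ⟨h4, h5⟩
        exact ⟨h4.trans hk1, h5.trans hk2⟩
      · rintro ⟨h4, h5⟩
        exact ⟨h4.trans hk1.symm, h5.trans hk2.symm⟩
    by_cases h4 : x ≡ r0 [MOD M]
    · by_cases h5 : x ≡ r [MOD m]
      · rw [if_pos h4, if_pos h5, if_pos (h3.mpr ⟨h4, h5⟩), mul_one]
      · rw [if_pos h4, if_neg h5, if_neg (fun h => h5 (h3.mp h).2), mul_zero]
    · rw [if_neg h4, if_neg (fun h => h4 (h3.mp h).1)]
  rw [h2, mul_one]
  have h6 : (Z : ℝ) * (e1 * (1 / m)) / M = Z * e1 / ((M * m : ℕ) : ℝ) := by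
    have : (0 : ℝ) < M := by exact_mod_cast hM
    have : (0 : ℝ) < m := by exact_mod_cast hm
    push_cast
    field_simp
  rw [h6]
  exact h1

theorem Mult.mono {g : ℕ → ℝ} {Q' Q'' : ℕ} {e K : ℝ} (h : Mult g Q' e K) (hQ : Q' ∣ Q'') :
    Mult g Q'' e K := fun f Q e1 K1 hc hf =>
  (h f Q e1 K1 (Nat.Coprime.coprime_dvd_right hQ hc) hf).mono_right (mul_dvd_mul_left Q hQ)

theorem mult_one (Q' : ℕ) : Mult (fun _ => 1) Q' 1 1 := by
  intro f Q e1 K1 hc hf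
  have h := hf.mono_right (dvd_mul_right Q Q')
  simpa using h

theorem mult_zero (Q' : ℕ) : Mult (fun _ => 0) Q' 0 0 := by
  intro f Q e1 K1 hc hf M r a Z hM hc
  simp

theorem Mult.add {g1 g2 : ℕ → ℝ} {Q' : ℕ} {e1 e2 K1 K2 : ℝ} (h1 : Mult g1 Q' e1 K1)
    (h2 : Mult g2 Q' e2 K2) : Mult (fun x => g1 x + g2 x) Q' (e1 + e2) (K1 + K2) := by
  intro f Q e K hc hf M r a Z hM hM2
  have h3 := h1 f Q e K hc hf M r a Z hM hM2
  have h4 := h2 f Q e K hc hf M r a Z hM hM2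
  have h5 : (∑ x ∈ Ico a (a + Z), if x ≡ r [MOD M] then f x * (g1 x + g2 x) else 0) =
      (∑ x ∈ Ico a (a + Z), if x ≡ r [MOD M] then f x * g1 x else 0) +
      (∑ x ∈ Ico a (a + Z), if x ≡ r [MOD M] then f x * g2 x else 0) := by
    rw [← Finset.sum_add_distrib]
    apply Finset.sum_congr rfl
    intro x _
    split_ifs <;> ring
  rw [h5]
  have h6 : (∑ x ∈ Ico a (a + Z), if x ≡ r [MOD M] then f x * g1 x else 0) +
      (∑ x ∈ Ico a (a + Z), if x ≡ r [MOD M] then f x * g2 x else 0) -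
        Z * (e * (e1 + e2)) / M =
      ((∑ x ∈ Ico a (a + Z), if x ≡ r [MOD M] then f x * g1 x else 0) - Z * (e * e1) / M) +
      ((∑ x ∈ Ico a (a + Z), if x ≡ r [MOD M] then f x * g2 x else 0) - Z * (e * e2) / M) := by
    ring
  rw [h6, mul_add]
  exact (abs_add_le _ _).trans (add_le_add h3 h4)

theorem Mult.smul {g : ℕ → ℝ} {Q' : ℕ} {e K : ℝ} (h : Mult g Q' e K) (c : ℝ) :
    Mult (fun x => c * g x) Q' (c * e) (|c| * K) := by
  intro f Q e1 K1 hc hf M r a Z hM hM2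
  have h3 := h f Q e1 K1 hc hf M r a Z hM hM2
  have h5 : (∑ x ∈ Ico a (a + Z), if x ≡ r [MOD M] then f x * (c * g x) else 0) =
      c * ∑ x ∈ Ico a (a + Z), if x ≡ r [MOD M] then f x * g x else 0 := by
    rw [Finset.mul_sum]
    apply Finset.sum_congr rfl
    intro x _
    split_ifs <;> ring
  rw [h5]
  have h6 : c * (∑ x ∈ Ico a (a + Z), if x ≡ r [MOD M] then f x * g x else 0) -
      Z * (e1 * (c * e)) / M =
      c * ((∑ x ∈ Ico a (a + Z), if x ≡ r [MOD M] then f x * g x else 0) - Z * (e1 * e) / M) := by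
    ring
  rw [h6, abs_mul]
  calc |c| * _ ≤ |c| * (K1 * K) := mul_le_mul_of_nonneg_left h3 (abs_nonneg c)
    _ = K1 * (|c| * K) := by ring

theorem Mult.sum {ι : Type*} (s : Finset ι) (g : ι → ℕ → ℝ) (Q' : ℕ) (e K : ι → ℝ)
    (h : ∀ i ∈ s, Mult (g i) Q' (e i) (K i)) :
    Mult (fun x => ∑ i ∈ s, g i x) Q' (∑ i ∈ s, e i) (∑ i ∈ s, K i) := by
  classical
  induction s using Finset.induction_on with
  | empty => simpa using mult_zero Q'
  | insert i s hi ih =>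
    simp only [Finset.sum_insert hi]
    exact (h i (Finset.mem_insert_self i s)).add
      (ih (fun i' hi' => h i' (Finset.mem_insert_of_mem hi')))

theorem Mult.mul {g1 g2 : ℕ → ℝ} {Q1 Q2 : ℕ} {e1 e2 K1 K2 : ℝ} (h1 : Mult g1 Q1 e1 K1)
    (h2 : Mult g2 Q2 e2 K2) (hc : Nat.Coprime Q1 Q2) :
    Mult (fun x => g1 x * g2 x) (Q1 * Q2) (e1 * e2) (K1 * K2) := by
  intro f Q e K hQ hf
  have hQ1 : Nat.Coprime Q Q1 := Nat.Coprime.coprime_dvd_right (dvd_mul_right Q1 Q2) hQ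
  have hQ2 : Nat.Coprime Q Q2 := Nat.Coprime.coprime_dvd_right (dvd_mul_left Q2 Q1) hQ
  have h3 := h1 f Q e K hQ1 hf
  have h4 := h2 _ (Q * Q1) (e * e1) (K * K1) (Nat.Coprime.mul_left hQ2 hc) h3
  have e5 : (fun x => f x * g1 x * g2 x) = fun x => f x * (g1 x * g2 x) := by
    funext x; ring
  rw [e5, mul_assoc, mul_assoc, mul_assoc] at h4
  exact h4

end Pool.Agent.DivGap
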