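import Mathlib

/-!
A pigeonhole argument: a multiple of `P` all whose residues modulo the primes of a finite set are
small multiples of prescribed numbers.
-/

namespace Pool.Agent.DivGap

open Finset

theorem bohr (S : Finset ℕ) (lam h : ℕ → ℕ) (P T : ℕ) (hS : ∀ q ∈ S, 1 < q)
    (hh : ∀ q ∈ S, 1 ≤ h q) (hc : ∀ q ∈ S, Nat.Coprime (lam q) q)
    (hT : ∏ q ∈ S, (q / h q + 1) ≤ T) :
    ∃ u : ℕ, 1 ≤ u ∧ u ≤ T ∧ ∀ q ∈ S, ∃ e : ℤ, |e| < h q ∧
      (q : ℤ) ∣ (u : ℤ) * P - lam q * e := by
  classical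
  have hinv : ∀ q : S, ∃ m : ℕ, lam q * m % q = 1 := by
    intro q
    obtain ⟨m, hm⟩ := Nat.exists_mul_mod_eq_one_of_coprime (hc q q.2) (hS q q.2)
    exact ⟨m, hm.2⟩
  choose inv hinv using hinv
  set g : ℕ → (S → ℕ) := fun t q => (t * P * inv q) % q / h q with hg
  have hmaps : ∀ t ∈ range (T + 1), g t ∈ Fintype.piFinset (fun q : S => range ((q : ℕ) / h q + 1)) := by
    intro t _
    rw [Fintype.mem_piFinset]
    intro q
    rw [Finset.mem_range]
    have h1 : (t * P * inv q) % q ≤ q := (Nat.mod_lt _ (by have := hS q q.2; omega)).le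
    exact Nat.lt_succ_of_le (Nat.div_le_div_right h1)
  have hcard : (Fintype.piFinset (fun q : S => range ((q : ℕ) / h q + 1))).card < (range (T + 1)).card := by
    rw [Fintype.card_piFinset, Finset.card_range]
    simp only [Finset.card_range]
    have h1 : ∏ q : S, ((q : ℕ) / h q + 1) = ∏ q ∈ S, (q / h q + 1) :=
      Finset.prod_coe_sort S (fun q => q / h q + 1)
    rw [h1]
    omega
  obtain ⟨t, ht, t', ht', hne, heq⟩ := Finset.exists_ne_map_eq_of_card_lt_of_maps_to hcard hmaps
  -- order the two parameters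
  have key : ∀ t t' : ℕ, t < t' → t' < T + 1 → g t = g t' →
      ∃ u : ℕ, 1 ≤ u ∧ u ≤ T ∧ ∀ q ∈ S, ∃ e : ℤ, |e| < h q ∧
        (q : ℤ) ∣ (u : ℤ) * P - lam q * e := by
    intro t t' htt ht' heq
    refine ⟨t' - t, by omega, by omega, ?_⟩
    intro q hq
    have h1 := congrFun heq ⟨q, hq⟩
    simp only [hg] at h1
    set m := inv ⟨q, hq⟩ with hm
    set s := (t * P * m) % q with hs
    set s' := (t' * P * m) % q with hs'
    have hh1 : 0 < h q := hh q hq
    refine ⟨(s' : ℤ) - s, ?_, ?_⟩
    · have h2 := Nat.div_add_mod s (h q)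
      have h3 := Nat.div_add_mod s' (h q)
      have h4 := Nat.mod_lt s hh1
      have h5 := Nat.mod_lt s' hh1
      rw [h1] at h2
      rw [abs_lt]
      constructor
      · have : (s : ℤ) < s' + h q := by
          have : s < s' + h q := by omega
          exact_mod_cast this
        linarith
      · have : (s' : ℤ) < s + h q := by
          have : s' < s + h q := by omega
          exact_mod_cast this
        linarith
    · -- work modulo `q`
      have h2 : (q : ℤ) ∣ (t * P * m : ℤ) - s := by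
        have h3 : (t * P * m) = q * ((t * P * m) / q) + s := (Nat.div_add_mod _ _).symm
        refine ⟨((t * P * m) / q : ℕ), ?_⟩
        have h4 : ((t * P * m : ℕ) : ℤ) = (q : ℤ) * (((t * P * m) / q : ℕ) : ℤ) + (s : ℤ) := by
          exact_mod_cast h3
        push_cast at h4 ⊢
        linarith
      have h3 : (q : ℤ) ∣ (t' * P * m : ℤ) - s' := by
        have h3 : (t' * P * m) = q * ((t' * P * m) / q) + s' := (Nat.div_add_mod _ _).symm
        refine ⟨((t' * P * m) / q : ℕ), ?_⟩
        have h4 : ((t' * P * m : ℕ) : ℤ) = (q : ℤ) * (((t' * P * m) / q : ℕ) : ℤ) + (s' : ℤ) := by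
          exact_mod_cast h3
        push_cast at h4 ⊢
        linarith
      have h4 : (q : ℤ) ∣ (lam q : ℤ) * m - 1 := by
        have h5 := hinv ⟨q, hq⟩
        simp only [← hm] at h5
        have h6 : lam q * m = q * ((lam q * m) / q) + 1 := by
          have := Nat.div_add_mod (lam q * m) q
          rw [h5] at this
          exact this.symm
        refine ⟨((lam q * m) / q : ℕ), ?_⟩
        have h7 : ((lam q * m : ℕ) : ℤ) = (q : ℤ) * (((lam q * m) / q : ℕ) : ℤ) + 1 := by
          exact_mod_cast h6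
        push_cast at h7 ⊢
        linarith
      have h5 : (((t' - t : ℕ) : ℤ)) = (t' : ℤ) - t := by
        rw [Nat.cast_sub htt.le]
      rw [h5]
      have h6 : ((t' : ℤ) - t) * P - lam q * ((s' : ℤ) - s) =
          lam q * ((t' * P * m : ℤ) - s') - lam q * ((t * P * m : ℤ) - s) -
            ((t' : ℤ) - t) * P * (lam q * m - 1) := by ring
      rw [h6]
      exact dvd_sub (dvd_sub (Dvd.dvd.mul_left h3 _) (Dvd.dvd.mul_left h2 _))
        (Dvd.dvd.mul_left h4 _)
  have ht1 := Finset.mem_range.mp ht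
  have ht2 := Finset.mem_range.mp ht'
  rcases lt_or_gt_of_ne hne with hlt | hlt
  · exact key t t' hlt ht2 heq
  · exact key t' t hlt ht1 heq.symm

end Pool.Agent.DivGap
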