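import Mathlib
import Pool.Agent.Helper44.PNT.PNT

/-!
Primes in `(n, 2n)`, arranged in groups.
-/

namespace Pool.Agent.DivGap

open Finset Filter Topology

theorem prime_supply : ∃ n0 : ℕ, ∀ n : ℕ, n0 ≤ n →
    (n : ℝ) / (4 * Real.log n) ≤ (((Ioo n (2 * n)).filter Nat.Prime).card : ℝ) := by
  have h1 := Pool.Agent.Helper44.PNT.theta_div_tendsto
  have h2 : ∀ᶠ x : ℝ in atTop, (5 / 6 : ℝ) < Chebyshev.theta x / x ∧
      Chebyshev.theta x / x < 7 / 6 := by
    have h3 := h1.eventually (Ioo_mem_nhds (by norm_num : (5 / 6 : ℝ) < 1) (by norm_num : (1 : ℝ) < 7 / 6))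
    filter_upwards [h3] with x hx
    exact hx
  obtain ⟨X0, hX0⟩ := Filter.eventually_atTop.mp h2
  refine ⟨max 3 ⌈X0⌉₊, ?_⟩
  intro n hn
  have hn3 : 3 ≤ n := le_trans (le_max_left _ _) hn
  have hnX : X0 ≤ n := le_trans (Nat.le_ceil X0) (by exact_mod_cast le_trans (le_max_right _ _) hn)
  have hnr : (3 : ℝ) ≤ n := by exact_mod_cast hn3
  have h4 := hX0 n hnX
  have h5 := hX0 (2 * n : ℕ) (by push_cast; linarith)
  have hn0 : (0 : ℝ) < n := by linarith
  have h6 : Chebyshev.theta n < 7 / 6 * n := by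
    have := h4.2
    rwa [div_lt_iff₀ hn0] at this
  have h7 : 5 / 6 * ((2 * n : ℕ) : ℝ) < Chebyshev.theta (2 * n : ℕ) := by
    have := h5.1
    rwa [lt_div_iff₀ (by push_cast; linarith)] at this
  have e1 : Chebyshev.theta n = ∑ p ∈ (Ioc 0 n).filter Nat.Prime, Real.log p := by
    unfold Chebyshev.theta
    rw [Nat.floor_natCast]
  have e2 : Chebyshev.theta (2 * n : ℕ) = ∑ p ∈ (Ioc 0 (2 * n)).filter Nat.Prime, Real.log p := by
    unfold Chebyshev.theta
    rw [Nat.floor_natCast]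
  have e3 : (Ioc 0 (2 * n)).filter Nat.Prime =
      (Ioc 0 n).filter Nat.Prime ∪ (Ioo n (2 * n)).filter Nat.Prime := by
    ext p
    simp only [Finset.mem_filter, Finset.mem_Ioc, Finset.mem_union, Finset.mem_Ioo]
    constructor
    · rintro ⟨⟨h8, h9⟩, h10⟩
      by_cases h11 : p ≤ n
      · left; exact ⟨⟨h8, h11⟩, h10⟩
      · right
        refine ⟨⟨by omega, ?_⟩, h10⟩
        rcases Nat.lt_or_eq_of_le h9 with h12 | h12
        · exact h12
        · exfalso
          subst h12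
          have := (Nat.prime_mul_iff.mp h10)
          rcases this with h13 | h13
          · omega
          · omega
    · rintro (⟨⟨h8, h9⟩, h10⟩ | ⟨⟨h8, h9⟩, h10⟩)
      · exact ⟨⟨h8, by omega⟩, h10⟩
      · exact ⟨⟨by omega, by omega⟩, h10⟩
  have e4 : Disjoint ((Ioc 0 n).filter Nat.Prime) ((Ioo n (2 * n)).filter Nat.Prime) := by
    rw [Finset.disjoint_left]
    intro p hp hp'
    have h8 := Finset.mem_Ioc.mp (Finset.mem_filter.mp hp).1
    have h9 := Finset.mem_Ioo.mp (Finset.mem_filter.mp hp').1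
    omega
  rw [e3, Finset.sum_union e4] at e2
  have hlog : 1 ≤ Real.log n := by
    rw [Real.le_log_iff_exp_le hn0]
    have := Real.exp_one_lt_d9
    linarith
  have h8 : ∑ p ∈ (Ioo n (2 * n)).filter Nat.Prime, Real.log p ≤
      (((Ioo n (2 * n)).filter Nat.Prime).card : ℝ) * (2 * Real.log n) := by
    rw [← nsmul_eq_mul]
    apply Finset.sum_le_card_nsmul
    intro p hp
    have h9 := Finset.mem_Ioo.mp (Finset.mem_filter.mp hp).1
    have h10 : (p : ℝ) ≤ (n : ℝ) ^ 2 := by
      have : p ≤ n ^ 2 := by nlinarith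
      exact_mod_cast this
    calc Real.log p ≤ Real.log ((n : ℝ) ^ 2) :=
          Real.log_le_log (by exact_mod_cast (by omega : 0 < p)) h10
      _ = 2 * Real.log n := by rw [Real.log_pow]; norm_num
  have h9 : (n : ℝ) / 2 ≤ ∑ p ∈ (Ioo n (2 * n)).filter Nat.Prime, Real.log p := by
    have : ((2 * n : ℕ) : ℝ) = 2 * n := by push_cast; ring
    rw [this] at h7
    rw [e1] at h6
    rw [← this] at h7
    push_cast at h7 e2
    linarith
  rw [div_le_iff₀ (by linarith)]
  linarith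

/-- groups of primes -/
theorem groups (j : ℕ) (hj : 1 ≤ j) : ∃ n0 : ℕ, ∀ n : ℕ, n0 ≤ n →
    ∃ s : ℕ, 1 ≤ s ∧ (n : ℝ) / (8 * j * Real.log n) ≤ s ∧ ∃ p : Fin j → Fin s → ℕ,
      (∀ i t, (p i t).Prime) ∧ (∀ i t i' t', p i t = p i' t' → i = i' ∧ t = t') ∧
      (∀ i t, n < p i t) ∧ (∀ i t, p i t < 2 * n) := by
  obtain ⟨n1, hn1⟩ := prime_supply
  have hjr : (1 : ℝ) ≤ j := by exact_mod_cast hj
  -- for large `n` there are at least `j` primes
  have h1 : ∀ᶠ x : ℝ in atTop, (8 * j : ℝ) * Real.log x ≤ x := by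
    have h2 := Real.isLittleO_log_id_atTop
    have h3 := h2.def (show (0 : ℝ) < 1 / (8 * j) by positivity)
    filter_upwards [h3, eventually_ge_atTop (1 : ℝ)] with x hx hx1
    rw [Real.norm_eq_abs, Real.norm_eq_abs, abs_of_nonneg (Real.log_nonneg hx1)] at hx
    simp only [id] at hx
    rw [abs_of_nonneg (by linarith)] at hx
    calc (8 * j : ℝ) * Real.log x ≤ 8 * j * (1 / (8 * j) * x) := by gcongr
      _ = x := by field_simp
  obtain ⟨X0, hX0⟩ := Filter.eventually_atTop.mp h1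
  refine ⟨max (max 3 n1) ⌈X0⌉₊, ?_⟩
  intro n hn
  have hn3 : 3 ≤ n := le_trans (le_max_left _ _) (le_trans (le_max_left _ _) hn)
  have hnn1 : n1 ≤ n := le_trans (le_max_right _ _) (le_trans (le_max_left _ _) hn)
  have hnX : X0 ≤ n := le_trans (Nat.le_ceil X0) (by exact_mod_cast le_trans (le_max_right _ _) hn)
  have hnr : (3 : ℝ) ≤ n := by exact_mod_cast hn3
  have hn0 : (0 : ℝ) < n := by linarith
  have hlog : 1 ≤ Real.log n := by
    rw [Real.le_log_iff_exp_le hn0]
    have := Real.exp_one_lt_d9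
    linarith
  have hbig := hX0 n hnX
  have hcard := hn1 n hnn1
  set I := (Ioo n (2 * n)).filter Nat.Prime with hI
  set s := I.card / j with hs
  have hjs : j * s ≤ I.card := by rw [hs]; exact Nat.mul_div_le _ _
  have hjs2 : I.card < j * s + j := by
    have h2 := Nat.div_add_mod I.card j
    have h3 := Nat.mod_lt I.card (by omega : 0 < j)
    rw [← hs] at h2
    omega
  have hcardr : (2 * j : ℝ) ≤ I.card := by
    refine le_trans ?_ hcard
    rw [le_div_iff₀ (by linarith)]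
    linarith
  have hs_lower : (n : ℝ) / (8 * j * Real.log n) ≤ s := by
    have h2 : (I.card : ℝ) < j * s + j := by exact_mod_cast hjs2
    have h3 : (I.card : ℝ) / 2 ≤ j * s := by linarith
    have h4 : (n : ℝ) / (8 * j * Real.log n) = (n / (4 * Real.log n)) / 2 / j := by
      field_simp
      ring
    rw [h4, div_le_iff₀ (by linarith)]
    linarith
  have hs1 : 1 ≤ s := by
    have h2 : (0 : ℝ) < s := lt_of_lt_of_le (by positivity) hs_lower
    have : 0 < s := by exact_mod_cast h2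
    omega
  refine ⟨s, hs1, hs_lower, ?_⟩
  have hidx : ∀ (i : Fin j) (t : Fin s), (i : ℕ) * s + t < I.card := by
    intro i t
    have h2 : ((i : ℕ) + 1) * s ≤ j * s := Nat.mul_le_mul_right s i.2
    have h3 := t.2
    have h4 : ((i : ℕ) + 1) * s = i * s + s := by ring
    omega
  refine ⟨fun i t => I.orderEmbOfFin rfl ⟨(i : ℕ) * s + t, hidx i t⟩, ?_, ?_, ?_, ?_⟩
  · intro i t
    have := I.orderEmbOfFin_mem rfl ⟨(i : ℕ) * s + t, hidx i t⟩
    exact (Finset.mem_filter.mp this).2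
  · intro i t i' t' h
    have h2 := (I.orderEmbOfFin rfl).injective h
    have h3 : (i : ℕ) * s + t = i' * s + t' := by
      have := congrArg Fin.val h2
      simpa using this
    have h4 : (i : ℕ) = i' := by
      have h5 : ((i : ℕ) * s + t) / s = ((i' : ℕ) * s + t') / s := by rw [h3]
      rw [mul_comm (i : ℕ) s, mul_comm (i' : ℕ) s, Nat.mul_add_div (by omega), Nat.mul_add_div (by omega),
        Nat.div_eq_of_lt t.2, Nat.div_eq_of_lt t'.2] at h5
      omega
    have h5 : (t : ℕ) = t' := by rw [h4] at h3; omega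
    exact ⟨Fin.ext h4, Fin.ext h5⟩
  · intro i t
    have := I.orderEmbOfFin_mem rfl ⟨(i : ℕ) * s + t, hidx i t⟩
    exact (Finset.mem_Ioo.mp (Finset.mem_filter.mp this).1).1
  · intro i t
    have := I.orderEmbOfFin_mem rfl ⟨(i : ℕ) * s + t, hidx i t⟩
    exact (Finset.mem_Ioo.mp (Finset.mem_filter.mp this).1).2

end Pool.Agent.DivGap
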