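import Pool.Agent.DivGap.Gaps
import Pool.Agent.DivGap.Supply

/-!
Moments of the gaps: the final estimate.
-/

namespace Pool.Agent.DivGap

open Finset Classical

theorem harmonic_le (n : ℕ) (hn : 3 ≤ n) :
    ∑ H ∈ range (n + 1), (1 : ℝ) / ((H : ℝ) + 1) ≤ 3 * Real.log n := by
  have h1 := harmonic_le_one_add_log (n + 1)
  have h2 : ((harmonic (n + 1) : ℚ) : ℝ) = ∑ H ∈ range (n + 1), (1 : ℝ) / ((H : ℝ) + 1) := by
    unfold harmonic
    push_cast
    apply Finset.sum_congr rfl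
    intro H _
    rw [one_div]
  rw [h2] at h1
  have hnr : (3 : ℝ) ≤ n := by exact_mod_cast hn
  have hlog : 1 ≤ Real.log n := by
    rw [Real.le_log_iff_exp_le (by linarith)]
    have := Real.exp_one_lt_d9
    linarith
  have h3 : Real.log ((n + 1 : ℕ) : ℝ) ≤ 2 * Real.log n := by
    have h4 : ((n + 1 : ℕ) : ℝ) ≤ (n : ℝ) ^ 2 := by push_cast; nlinarith
    calc Real.log ((n + 1 : ℕ) : ℝ) ≤ Real.log ((n : ℝ) ^ 2) :=
          Real.log_le_log (by positivity) h4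
      _ = 2 * Real.log n := by rw [Real.log_pow]; norm_num
  linarith

theorem bad_count (j k : ℕ) (hj : 1 ≤ j) : ∃ n0 : ℕ, ∀ n : ℕ, n0 ≤ n → ∀ H : ℕ, H ≤ n →
    (((Ico n (n ^ k)).filter (fun x => Bad n H x)).card : ℝ) ≤
      (n : ℝ) ^ k * (32 * j * Real.log n / ((H : ℝ) + 1)) ^ j + (20 * (n : ℝ) ^ 2) ^ j := by
  obtain ⟨n1, hn1⟩ := groups j hj
  refine ⟨max 3 n1, ?_⟩
  intro n hn H hHn
  have hn3 : 3 ≤ n := le_trans (le_max_left _ _) hn
  have hnr : (3 : ℝ) ≤ n := by exact_mod_cast hn3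
  have hjr : (1 : ℝ) ≤ j := by exact_mod_cast hj
  have hlog : 1 ≤ Real.log n := by
    rw [Real.le_log_iff_exp_le (by linarith)]
    have := Real.exp_one_lt_d9
    linarith
  obtain ⟨s, hs1, hs2, p, hp, hinj, hpn, hpn2⟩ := hn1 n (le_trans (le_max_right _ _) hn)
  have hsub : (Ico n (n ^ k)).filter (fun x => Bad n H x) ⊆ Ico 0 (0 + n ^ k) := by
    intro x hx
    have := Finset.mem_Ico.mp (Finset.mem_filter.mp hx).1
    exact Finset.mem_Ico.mpr ⟨Nat.zero_le _, by omega⟩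
  have hbase : (0 : ℝ) ≤ (20 * (n : ℝ) ^ 2) ^ j := by positivity
  rcases Nat.eq_zero_or_pos H with hH0 | hH1
  · have h1 : (((Ico n (n ^ k)).filter (fun x => Bad n H x)).card : ℝ) ≤ (n : ℝ) ^ k := by
      have h2 := Finset.card_le_card hsub
      rw [Nat.card_Ico] at h2
      have h3 : 0 + n ^ k - 0 = n ^ k := by omega
      rw [h3] at h2
      exact_mod_cast h2
    have h2 : (1 : ℝ) ≤ (32 * j * Real.log n / ((H : ℝ) + 1)) ^ j := by
      apply one_le_pow₀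
      rw [hH0]
      norm_num
      nlinarith
    have h3 : (n : ℝ) ^ k ≤ (n : ℝ) ^ k * (32 * j * Real.log n / ((H : ℝ) + 1)) ^ j :=
      le_mul_of_one_le_right (by positivity) h2
    linarith
  · have h1 := bad_le H 0 (n ^ k) (by omega : 1 ≤ n) hs1 hH1 hHn p hp hinj hpn hpn2
      ((Ico n (n ^ k)).filter (fun x => Bad n H x)) hsub (by
        intro x hx i t h hh1 hh2 hdvd
        exact (Finset.mem_filter.mp hx).2 (x + h) (by omega) (by omega)
          ⟨p i t, hpn i t, hpn2 i t, hdvd⟩)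
    have hHr : (1 : ℝ) ≤ H := by exact_mod_cast hH1
    have hsr : (1 : ℝ) ≤ s := by exact_mod_cast hs1
    have h2 : 2 * (n : ℝ) / (s * H) ≤ 32 * j * Real.log n / ((H : ℝ) + 1) := by
      rw [div_le_div_iff₀ (by positivity) (by positivity)]
      have h3 : (n : ℝ) ≤ s * (8 * j * Real.log n) := by
        rwa [div_le_iff₀ (by positivity)] at hs2
      have h4 : (H : ℝ) + 1 ≤ 2 * H := by linarith
      calc 2 * (n : ℝ) * (H + 1) ≤ 2 * (s * (8 * j * Real.log n)) * (2 * H) := by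
            gcongr
        _ = 32 * j * Real.log n * (s * H) := by ring
    have h3 : (2 * (n : ℝ) / (s * H)) ^ j ≤ (32 * j * Real.log n / ((H : ℝ) + 1)) ^ j :=
      pow_le_pow_left₀ (by positivity) h2 j
    have h4 : ((n ^ k : ℕ) : ℝ) = (n : ℝ) ^ k := by push_cast; rfl
    rw [h4] at h1
    have h5 : (n : ℝ) ^ k * (2 * (n : ℝ) / (s * H)) ^ j ≤
        (n : ℝ) ^ k * (32 * j * Real.log n / ((H : ℝ) + 1)) ^ j :=
      mul_le_mul_of_nonneg_left h3 (by positivity)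
    linarith

theorem moments (j k : ℕ) (hjk : 3 * (j + 1) ≤ k) : ∃ C : ℝ, ∃ n0 : ℕ, ∀ n : ℕ, n0 ≤ n →
    ∑ q ∈ gapPairs k n, ((q.2 : ℝ) - (q.1 : ℝ)) ^ (j + 1 + 1) ≤
      C * (n : ℝ) ^ k * Real.log n ^ (j + 1 + 1) := by
  obtain ⟨n1, hn1⟩ := bad_count (j + 1) k (by omega)
  refine ⟨((j : ℝ) + 1 + 1) * (((j : ℝ) + 1) * (3 * (32 * ((j + 1 : ℕ) : ℝ)) ^ (j + 1) +
    40 ^ (j + 1))), max 3 n1, ?_⟩
  intro n hn
  have hn3 : 3 ≤ n := le_trans (le_max_left _ _) hn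
  have hnr : (3 : ℝ) ≤ n := by exact_mod_cast hn3
  have hn0 : (0 : ℝ) ≤ n := by linarith
  have hlog : 1 ≤ Real.log n := by
    rw [Real.le_log_iff_exp_le (by linarith)]
    have := Real.exp_one_lt_d9
    linarith
  have hb := hn1 n (le_trans (le_max_right _ _) hn)
  have h1 := moments_le k n j (by omega)
  have h2 : ∑ q ∈ gapPairs k n, ((q.2 : ℝ) - (q.1 : ℝ)) ^ (j + 1 + 1) =
      ((∑ q ∈ gapPairs k n, (q.2 - q.1) ^ (j + 1 + 1) : ℕ) : ℝ) := by
    rw [Nat.cast_sum]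
    apply Finset.sum_congr rfl
    intro q hq
    have hq' := (Finset.mem_filter.mp hq).2.1
    rw [Nat.cast_pow, Nat.cast_sub hq'.le]
  rw [h2]
  have h3 : ((∑ q ∈ gapPairs k n, (q.2 - q.1) ^ (j + 1 + 1) : ℕ) : ℝ) ≤
      (((j + 1 + 1) * ∑ H ∈ range (n + 1), (j + 1) * (H + 1) ^ j *
        ((Ico n (n ^ k)).filter (fun x => Bad n H x)).card : ℕ) : ℝ) := by exact_mod_cast h1
  refine h3.trans ?_
  rw [Nat.cast_mul, Nat.cast_sum]
  have h4 : ∀ H ∈ range (n + 1), (((j + 1) * (H + 1) ^ j *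
        ((Ico n (n ^ k)).filter (fun x => Bad n H x)).card : ℕ) : ℝ) ≤
      ((j : ℝ) + 1) * ((32 * ((j + 1 : ℕ) : ℝ)) ^ (j + 1) * (n : ℝ) ^ k * Real.log n ^ (j + 1) *
        (1 / ((H : ℝ) + 1)) + 20 ^ (j + 1) * (n : ℝ) ^ (2 * (j + 1)) * (2 * n) ^ j) := by
    intro H hH
    have hHn : H ≤ n := by have := Finset.mem_range.mp hH; omega
    have h5 := hb H hHn
    have hH1 : (0 : ℝ) < (H : ℝ) + 1 := by positivity
    have h6 : ((H : ℝ) + 1) ^ j ≤ (2 * n) ^ j := by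
      apply pow_le_pow_left₀ hH1.le
      have : (H : ℝ) ≤ n := by exact_mod_cast hHn
      linarith
    push_cast
    rw [mul_assoc]
    apply mul_le_mul_of_nonneg_left _ (by positivity)
    calc ((H : ℝ) + 1) ^ j * (((Ico n (n ^ k)).filter (fun x => Bad n H x)).card : ℝ)
        ≤ ((H : ℝ) + 1) ^ j * ((n : ℝ) ^ k * (32 * ((j + 1 : ℕ) : ℝ) * Real.log n /
            ((H : ℝ) + 1)) ^ (j + 1) + (20 * (n : ℝ) ^ 2) ^ (j + 1)) :=
          mul_le_mul_of_nonneg_left h5 (by positivity)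
      _ = (32 * ((j + 1 : ℕ) : ℝ)) ^ (j + 1) * (n : ℝ) ^ k * Real.log n ^ (j + 1) *
            (1 / ((H : ℝ) + 1)) + 20 ^ (j + 1) * (n : ℝ) ^ (2 * (j + 1)) * ((H : ℝ) + 1) ^ j := by
          rw [mul_add]
          congr 1
          · rw [div_pow, mul_pow]
            field_simp
            ring
          · rw [mul_pow, ← pow_mul]
            ring
      _ ≤ (32 * ((j + 1 : ℕ) : ℝ)) ^ (j + 1) * (n : ℝ) ^ k * Real.log n ^ (j + 1) *
            (1 / ((H : ℝ) + 1)) + 20 ^ (j + 1) * (n : ℝ) ^ (2 * (j + 1)) * (2 * n) ^ j := by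
          gcongr
      _ = _ := by push_cast; ring
  have h5 : ∑ H ∈ range (n + 1), (((j + 1) * (H + 1) ^ j *
        ((Ico n (n ^ k)).filter (fun x => Bad n H x)).card : ℕ) : ℝ) ≤
      ((j : ℝ) + 1) * (3 * (32 * ((j + 1 : ℕ) : ℝ)) ^ (j + 1) + 40 ^ (j + 1)) * (n : ℝ) ^ k *
        Real.log n ^ (j + 1 + 1) := by
    refine (Finset.sum_le_sum h4).trans ?_
    rw [← Finset.mul_sum, Finset.sum_add_distrib, ← Finset.mul_sum, Finset.sum_const,
      Finset.card_range, nsmul_eq_mul]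
    have h6 := harmonic_le n hn3
    set D := (32 * ((j + 1 : ℕ) : ℝ)) ^ (j + 1) with hD
    have hD0 : 0 ≤ D := by positivity
    have h7 : D * (n : ℝ) ^ k * Real.log n ^ (j + 1) *
        ∑ H ∈ range (n + 1), 1 / ((H : ℝ) + 1) ≤
        D * (n : ℝ) ^ k * Real.log n ^ (j + 1) * (3 * Real.log n) :=
      mul_le_mul_of_nonneg_left h6 (by positivity)
    have h8 : ((n + 1 : ℕ) : ℝ) * (20 ^ (j + 1) * (n : ℝ) ^ (2 * (j + 1)) * (2 * n) ^ j) ≤
        40 ^ (j + 1) * (n : ℝ) ^ k * Real.log n ^ (j + 1 + 1) := by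
      have h9 : ((n + 1 : ℕ) : ℝ) ≤ 2 * n := by push_cast; linarith
      have h10 : (n : ℝ) ^ (3 * (j + 1)) ≤ (n : ℝ) ^ k := pow_le_pow_right₀ (by linarith) hjk
      calc ((n + 1 : ℕ) : ℝ) * (20 ^ (j + 1) * (n : ℝ) ^ (2 * (j + 1)) * (2 * n) ^ j)
          ≤ (2 * n) * (20 ^ (j + 1) * (n : ℝ) ^ (2 * (j + 1)) * (2 * n) ^ j) :=
            mul_le_mul_of_nonneg_right h9 (by positivity)
        _ = 40 ^ (j + 1) * (n : ℝ) ^ (3 * (j + 1)) := by
            have e1 : (40 : ℝ) ^ (j + 1) = 20 ^ (j + 1) * 2 ^ (j + 1) := by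
              rw [← mul_pow]; norm_num
            have e2 : (n : ℝ) ^ (3 * (j + 1)) = (n : ℝ) ^ (2 * (j + 1)) * (n : ℝ) ^ (j + 1) := by
              rw [← pow_add]; congr 1; ring
            rw [e1, e2, mul_pow]
            ring
        _ ≤ 40 ^ (j + 1) * (n : ℝ) ^ k := mul_le_mul_of_nonneg_left h10 (by positivity)
        _ ≤ 40 ^ (j + 1) * (n : ℝ) ^ k * Real.log n ^ (j + 1 + 1) :=
            le_mul_of_one_le_right (by positivity) (one_le_pow₀ hlog)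
    have h9 : D * (n : ℝ) ^ k * Real.log n ^ (j + 1) * (3 * Real.log n) =
        3 * D * (n : ℝ) ^ k * Real.log n ^ (j + 1 + 1) := by ring
    calc _ ≤ ((j : ℝ) + 1) * (3 * D * (n : ℝ) ^ k * Real.log n ^ (j + 1 + 1) +
          40 ^ (j + 1) * (n : ℝ) ^ k * Real.log n ^ (j + 1 + 1)) := by
          apply mul_le_mul_of_nonneg_left _ (by positivity)
          linarith
      _ = _ := by ring
  have h6 : ((j + 1 + 1 : ℕ) : ℝ) = (j : ℝ) + 1 + 1 := by push_cast; ring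
  rw [h6]
  calc ((j : ℝ) + 1 + 1) * ∑ H ∈ range (n + 1), (((j + 1) * (H + 1) ^ j *
        ((Ico n (n ^ k)).filter (fun x => Bad n H x)).card : ℕ) : ℝ)
      ≤ ((j : ℝ) + 1 + 1) * (((j : ℝ) + 1) * (3 * (32 * ((j + 1 : ℕ) : ℝ)) ^ (j + 1) +
        40 ^ (j + 1)) * (n : ℝ) ^ k * Real.log n ^ (j + 1 + 1)) :=
        mul_le_mul_of_nonneg_left h5 (by positivity)
    _ = _ := by ring

end Pool.Agent.DivGap
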