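import Pool.Agent.DivGap.Prod

/-!
Moments of the gaps between integers with a divisor in `(n, 2n)`.
-/

namespace Pool.Agent.DivGap

open Finset Classical

/-- `m` has a divisor strictly between `n` and `2 n` -/
def HasDiv (n m : ℕ) : Prop := ∃ d, n < d ∧ d < 2 * n ∧ d ∣ m

/-- the integers in `[n, n ^ k]` with a divisor strictly between `n` and `2 n` -/
noncomputable def A (k n : ℕ) : Finset ℕ := (Icc n (n ^ k)).filter (HasDiv n)

/-- the pairs of consecutive elements of `A k n` -/
noncomputable def gapPairs (k n : ℕ) : Finset (ℕ × ℕ) :=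
  (A k n ×ˢ A k n).filter (fun q => q.1 < q.2 ∧ ∀ c ∈ A k n, ¬ (q.1 < c ∧ c < q.2))

/-- no element in `(x, x + H]` -/
def Bad (n H x : ℕ) : Prop := ∀ m, x < m → m ≤ x + H → ¬ HasDiv n m

/-- the number of bad lengths `H ≤ n` -/
noncomputable def T (n x : ℕ) : ℕ := ((range (n + 1)).filter (fun H => Bad n H x)).card

theorem succ_pow_le (g j : ℕ) : (g + 1) ^ (j + 1) ≤ g ^ (j + 1) + (j + 1) * (g + 1) ^ j := by
  induction j with
  | zero => simp
  | succ j ih =>
    have h1 : (g + 1) ^ (j + 1 + 1) = g * (g + 1) ^ (j + 1) + (g + 1) ^ (j + 1) := by ring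
    have h2 : g * (g + 1) ^ (j + 1) ≤ g * (g ^ (j + 1) + (j + 1) * (g + 1) ^ j) :=
      Nat.mul_le_mul_left g ih
    have h3 : g * ((j + 1) * (g + 1) ^ j) ≤ (j + 1) * (g + 1) ^ (j + 1) := by
      have : (j + 1) * (g + 1) ^ (j + 1) = g * ((j + 1) * (g + 1) ^ j) + (j + 1) * (g + 1) ^ j := by
        ring
      omega
    have h4 : g * (g ^ (j + 1) + (j + 1) * (g + 1) ^ j) = g ^ (j + 1 + 1) +
        g * ((j + 1) * (g + 1) ^ j) := by ring
    have h5 : (j + 1 + 1) * (g + 1) ^ (j + 1) = (j + 1) * (g + 1) ^ (j + 1) + (g + 1) ^ (j + 1) := by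
      ring
    omega

theorem gap_pow_le (j b g : ℕ) (hg : g ≤ b) :
    g ^ (j + 1) ≤ (j + 1) * ∑ x ∈ Ico (b - g) b, (b - x) ^ j := by
  induction g with
  | zero => simp
  | succ g ih =>
    have h1 := ih (by omega)
    rw [Finset.sum_eq_sum_Ico_succ_bot (by omega : b - (g + 1) < b)]
    have h2 : b - (g + 1) + 1 = b - g := by omega
    have h3 : b - (b - (g + 1)) = g + 1 := by omega
    rw [h2, h3, mul_add]
    have h4 := succ_pow_le g j
    omega

theorem pow_le_sum (j r : ℕ) : r ^ (j + 1) ≤ ∑ H ∈ range r, (j + 1) * (H + 1) ^ j := by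
  induction r with
  | zero => simp
  | succ r ih =>
    rw [Finset.sum_range_succ]
    have := succ_pow_le r j
    omega

theorem T_pow_le (n x j : ℕ) :
    (T n x) ^ (j + 1) ≤ ∑ H ∈ (range (n + 1)).filter (fun H => Bad n H x),
      (j + 1) * (H + 1) ^ j := by
  have h1 : (range (n + 1)).filter (fun H => Bad n H x) = range (T n x) := by
    apply Finset.eq_of_subset_of_card_le
    · intro H hH
      have hH' := Finset.mem_filter.mp hH
      rw [Finset.mem_range]
      have h2 : range (H + 1) ⊆ (range (n + 1)).filter (fun H => Bad n H x) := by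
        intro H' hH2
        have h3 := Finset.mem_range.mp hH2
        have h4 := Finset.mem_range.mp hH'.1
        exact Finset.mem_filter.mpr ⟨Finset.mem_range.mpr (by omega),
          fun m hm1 hm2 => hH'.2 m hm1 (by omega)⟩
      have h3 := Finset.card_le_card h2
      rw [Finset.card_range] at h3
      exact h3
    · rw [Finset.card_range]
      exact le_refl _
  rw [h1]
  exact pow_le_sum j (T n x)

theorem consec_le (k n : ℕ) (hn : 2 ≤ n) (a b : ℕ) (h : (a, b) ∈ gapPairs k n) :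
    b ≤ a + (n + 1) := by
  have h' := Finset.mem_filter.mp h
  obtain ⟨hab, hc⟩ := h'.2
  have ha := Finset.mem_filter.mp (Finset.mem_product.mp h'.1).1
  have hb := Finset.mem_filter.mp (Finset.mem_product.mp h'.1).2
  simp only at hab hc ha hb
  have ha' := Finset.mem_Icc.mp ha.1
  have hb' := Finset.mem_Icc.mp hb.1
  by_contra hcon
  push Not at hcon
  -- the next multiple of `n + 1`
  have h1 := Nat.div_add_mod a (n + 1)
  have h2 := Nat.mod_lt a (Nat.succ_pos n)
  set m := (n + 1) * (a / (n + 1) + 1) with hm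
  have h3 : m = (n + 1) * (a / (n + 1)) + (n + 1) := by rw [hm]; ring
  apply hc m
  · refine Finset.mem_filter.mpr ⟨Finset.mem_Icc.mpr ⟨?_, ?_⟩, n + 1, by omega, by omega, ?_⟩
    · simp only [Nat.succ_eq_add_one] at h2
      omega
    · simp only [Nat.succ_eq_add_one] at h2
      omega
    · exact Dvd.intro _ hm.symm
  · simp only [Nat.succ_eq_add_one] at h2
    constructor <;> omega

theorem T_ge (k n : ℕ) (hn : 2 ≤ n) (a b x : ℕ) (h : (a, b) ∈ gapPairs k n) (hax : a ≤ x)
    (hxb : x < b) : b - x ≤ T n x := by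
  have h1 := consec_le k n hn a b h
  have h' := Finset.mem_filter.mp h
  obtain ⟨hab, hc⟩ := h'.2
  have ha := Finset.mem_filter.mp (Finset.mem_product.mp h'.1).1
  have hb := Finset.mem_filter.mp (Finset.mem_product.mp h'.1).2
  simp only at hab hc ha hb
  have ha' := Finset.mem_Icc.mp ha.1
  have hb' := Finset.mem_Icc.mp hb.1
  have h2 : range (b - x) ⊆ (range (n + 1)).filter (fun H => Bad n H x) := by
    intro H hH
    have hH' := Finset.mem_range.mp hH
    refine Finset.mem_filter.mpr ⟨Finset.mem_range.mpr (by omega), ?_⟩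
    intro m hm1 hm2 hdiv
    exact hc m (Finset.mem_filter.mpr ⟨Finset.mem_Icc.mpr ⟨by omega, by omega⟩, hdiv⟩)
      ⟨by omega, by omega⟩
  have h3 := Finset.card_le_card h2
  rw [Finset.card_range] at h3
  exact h3

theorem sum_pairs_le (k n : ℕ) (f : ℕ → ℕ) :
    ∑ q ∈ gapPairs k n, ∑ x ∈ Ico q.1 q.2, f x ≤ ∑ x ∈ Ico n (n ^ k), f x := by
  have h1 : ∀ q ∈ gapPairs k n, ∑ x ∈ Ico q.1 q.2, f x =
      ∑ x ∈ Ico n (n ^ k), if q.1 ≤ x ∧ x < q.2 then f x else 0 := by
    intro q hq
    have h' := Finset.mem_filter.mp hq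
    have ha := Finset.mem_Icc.mp (Finset.mem_filter.mp (Finset.mem_product.mp h'.1).1).1
    have hb := Finset.mem_Icc.mp (Finset.mem_filter.mp (Finset.mem_product.mp h'.1).2).1
    rw [← Finset.sum_filter]
    apply Finset.sum_congr _ (fun _ _ => rfl)
    ext x
    simp only [Finset.mem_Ico, Finset.mem_filter]
    constructor
    · rintro ⟨h1, h2⟩
      exact ⟨⟨by omega, by omega⟩, h1, h2⟩
    · rintro ⟨_, h1, h2⟩
      exact ⟨h1, h2⟩
  rw [Finset.sum_congr rfl h1, Finset.sum_comm]
  apply Finset.sum_le_sum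
  intro x _
  rw [← Finset.sum_filter, Finset.sum_const, smul_eq_mul]
  have h2 : ((gapPairs k n).filter (fun q => q.1 ≤ x ∧ x < q.2)).card ≤ 1 := by
    apply Finset.card_le_one.mpr
    intro q hq q' hq'
    obtain ⟨hq1, hq2, hq3⟩ := Finset.mem_filter.mp hq
    obtain ⟨hr1, hr2, hr3⟩ := Finset.mem_filter.mp hq'
    have h3 := Finset.mem_filter.mp hq1
    have h4 := Finset.mem_filter.mp hr1
    have hqa := (Finset.mem_product.mp h3.1).1
    have hqb := (Finset.mem_product.mp h3.1).2
    have hra := (Finset.mem_product.mp h4.1).1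
    have hrb := (Finset.mem_product.mp h4.1).2
    have e1 : q.1 = q'.1 := by
      rcases lt_trichotomy q.1 q'.1 with h | h | h
      · exact absurd ⟨h, by omega⟩ (h3.2.2 _ hra)
      · exact h
      · exact absurd ⟨h, by omega⟩ (h4.2.2 _ hqa)
    have e2 : q.2 = q'.2 := by
      rcases lt_trichotomy q.2 q'.2 with h | h | h
      · exact absurd ⟨by omega, h⟩ (h4.2.2 _ hqb)
      · exact h
      · exact absurd ⟨by omega, h⟩ (h3.2.2 _ hrb)
    exact Prod.ext e1 e2
  nlinarith [Nat.zero_le (f x)]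

/-- reduction to the counting of bad integers -/
theorem moments_le (k n j : ℕ) (hn : 2 ≤ n) :
    ∑ q ∈ gapPairs k n, (q.2 - q.1) ^ (j + 1 + 1) ≤
      (j + 1 + 1) * ∑ H ∈ range (n + 1), (j + 1) * (H + 1) ^ j *
        ((Ico n (n ^ k)).filter (fun x => Bad n H x)).card := by
  calc ∑ q ∈ gapPairs k n, (q.2 - q.1) ^ (j + 1 + 1)
      ≤ ∑ q ∈ gapPairs k n, (j + 1 + 1) * ∑ x ∈ Ico q.1 q.2, (T n x) ^ (j + 1) := by
        apply Finset.sum_le_sum
        intro q hq
        have hq' := (Finset.mem_filter.mp hq).2.1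
        have h1 := gap_pow_le (j + 1) q.2 (q.2 - q.1) (Nat.sub_le _ _)
        have h2 : q.2 - (q.2 - q.1) = q.1 := by omega
        rw [h2] at h1
        refine h1.trans (Nat.mul_le_mul_left _ ?_)
        apply Finset.sum_le_sum
        intro x hx
        have hx' := Finset.mem_Ico.mp hx
        exact Nat.pow_le_pow_left (T_ge k n hn q.1 q.2 x hq hx'.1 hx'.2) _
    _ = (j + 1 + 1) * ∑ q ∈ gapPairs k n, ∑ x ∈ Ico q.1 q.2, (T n x) ^ (j + 1) := by
        rw [Finset.mul_sum]
    _ ≤ (j + 1 + 1) * ∑ x ∈ Ico n (n ^ k), (T n x) ^ (j + 1) :=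
        Nat.mul_le_mul_left _ (sum_pairs_le k n (fun x => (T n x) ^ (j + 1)))
    _ ≤ (j + 1 + 1) * ∑ x ∈ Ico n (n ^ k),
          ∑ H ∈ (range (n + 1)).filter (fun H => Bad n H x), (j + 1) * (H + 1) ^ j :=
        Nat.mul_le_mul_left _ (Finset.sum_le_sum (fun x _ => T_pow_le n x j))
    _ = _ := by
        congr 1
        simp only [Finset.sum_filter]
        rw [Finset.sum_comm]
        apply Finset.sum_congr rfl
        intro H _
        rw [← Finset.sum_filter, Finset.sum_const, smul_eq_mul, mul_comm]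

end Pool.Agent.DivGap
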