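import Pool.Agent.DivGap.Sizes

/-!
The lower bound for the largest gap: infinitely many `n` with a gap of length at least
`c log n log log n / log log log n`.
-/

namespace Pool.Agent.DivGap

open Finset Chebyshev Nat

theorem lower : ∃ c : ℝ, 0 < c ∧ ∀ n1 : ℕ, ∃ n : ℕ, n1 ≤ n ∧ ∀ k : ℕ, 2 ≤ k →
    ∃ q ∈ gapPairs k n,
      c * Real.log n * Real.log (Real.log n) / Real.log (Real.log (Real.log n)) ≤
        (q.2 : ℝ) - (q.1 : ℝ) := by
  refine ⟨1 / 13000, by norm_num, ?_⟩
  intro n1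
  set J := n1 + 1 with hJ
  obtain ⟨z, B, N, hz, hB, hwin, hN1, hN2⟩ := exists_window J (by omega)
  set w := 2 ^ J with hw
  have hJw : J + 1 ≤ w := Nat.lt_two_pow_self
  have hw2 : 2 ≤ w := by omega
  set e := 32 * w with he
  have he1 : 7 * e + 1 ≤ z := by
    rw [hz]
    have h1 : e - 5 < 2 ^ (e - 5) := Nat.lt_two_pow_self
    have h2 : 2 ^ e = 2 ^ (e - 5) * 32 := by
      have h3 : e = (e - 5) + 5 := by omega
      conv_lhs => rw [h3]
      rw [pow_add]
      norm_num
    omega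
  have hwz : 100 * w ≤ z := by omega
  have hwz2 : w ≤ z := by omega
  have hBz : B ≤ z ^ 2 := by
    rw [hB, sq]
    exact Nat.mul_le_mul_right z hwz2
  have htwo := two_pow_le_mul_lcmUpto z
  have hB3 : B ^ 3 ≤ lcmUpto z := by
    have h1 : (z + 1) * B ^ 3 ≤ (z + 1) * lcmUpto z := by
      calc (z + 1) * B ^ 3 ≤ (2 * z) * (z ^ 2) ^ 3 :=
            Nat.mul_le_mul (by omega) (Nat.pow_le_pow_left hBz 3)
        _ = 2 ^ (7 * e + 1) := by
            rw [hz, ← pow_mul, ← pow_mul]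
            have h9 : 7 * e + 1 = 1 + e + e * 2 * 3 := by ring
            rw [h9, pow_add, pow_add, pow_one, mul_assoc e 2 3]
        _ ≤ 2 ^ z := Nat.pow_le_pow_right (by norm_num) he1
        _ ≤ (z + 1) * lcmUpto z := htwo
    exact Nat.le_of_mul_le_mul_left h1 (by omega)
  have hB16 : 16 ≤ B := by
    rw [hB]
    nlinarith
  have hBn1 : n1 ≤ B := by
    rw [hB]
    nlinarith
  refine ⟨N / B + 1, ?_, ?_⟩
  · have h1 : B ≤ N / B := by
      rw [Nat.le_div_iff_mul_le (by omega)]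
      calc B * B ≤ B * B * B := Nat.le_mul_of_pos_right _ (by omega)
        _ = B ^ 3 := by ring
        _ ≤ lcmUpto z := hB3
        _ ≤ N := hN1
    omega
  intro k hk
  obtain ⟨q, hq, hqB⟩ := gap_of_window B N hB16 (hB3.trans hN1) hwin k hk
  refine ⟨q, hq, ?_⟩
  have hq12 : q.1 < q.2 := (Finset.mem_filter.mp hq).2.1
  have hgap : (B : ℝ) ≤ 4 * ((q.2 : ℝ) - q.1) := by
    have h1 : (B : ℝ) ≤ ((4 * (q.2 - q.1) : ℕ) : ℝ) := by exact_mod_cast hqB
    rw [Nat.cast_mul, Nat.cast_sub hq12.le] at h1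
    push_cast at h1
    exact h1
  -- real estimates
  have hl2 := Real.log_two_gt_d9
  have hl2' := Real.log_two_lt_d9
  have hwr : (2 : ℝ) ≤ w := by exact_mod_cast hw2
  have hzr : (0 : ℝ) < z := by exact_mod_cast (by omega : 0 < z)
  have hzw : 100 * (w : ℝ) ≤ z := by exact_mod_cast hwz
  have hJr : (1 : ℝ) ≤ J := by exact_mod_cast (by omega : 1 ≤ J)
  have hJwr : (J : ℝ) + 1 ≤ w := by exact_mod_cast hJw
  have hBr : (B : ℝ) = w * z := by rw [hB]; push_cast; ring
  have hlogz : Real.log z = 32 * w * Real.log 2 := by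
    rw [hz, he]
    push_cast
    rw [Real.log_pow]
    push_cast
    ring
  have hLz : 22 * (w : ℝ) ≤ Real.log z := by rw [hlogz]; nlinarith
  have hLz' : Real.log z ≤ 22.3 * (w : ℝ) := by rw [hlogz]; nlinarith
  -- `z >= 10000 w`
  have hzbig : 10000 * (w : ℝ) ≤ z := by
    have h1 : w < 2 ^ w := Nat.lt_two_pow_self
    have h2 : z = 2 ^ (31 * w) * 2 ^ w := by
      rw [hz, he, ← pow_add]
      congr 1
      ring
    have h3 : 2 ^ 31 ≤ 2 ^ (31 * w) := Nat.pow_le_pow_right (by norm_num) (by omega)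
    have h4 : 10000 * w ≤ z := by
      rw [h2]
      calc 10000 * w ≤ 2 ^ 31 * 2 ^ w := Nat.mul_le_mul (by norm_num) h1.le
        _ ≤ 2 ^ (31 * w) * 2 ^ w := Nat.mul_le_mul_right _ h3
    exact_mod_cast h4
  set n := N / B + 1 with hn
  have hB0 : 0 < B := by omega
  have hNpos : 0 < N := lt_of_lt_of_le (lcmUpto_pos z) hN1
  have hnN : n ≤ N := by
    have h1 : N / B ≤ N / 16 := Nat.div_le_div_left hB16 (by norm_num)
    have h2 : 16 ≤ N := by
      calc 16 ≤ B := hB16
        _ ≤ B ^ 3 := Nat.le_self_pow (by norm_num) _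
        _ ≤ N := hB3.trans hN1
    omega
  have hnBN : N < n * B := by
    have h2 := Nat.div_add_mod N B
    have h3 := Nat.mod_lt N hB0
    have h4 : n * B = B * (N / B) + B := by rw [hn]; ring
    omega
  have hn0 : (0 : ℝ) < n := by rw [hn]; positivity
  have hBr0 : (0 : ℝ) < B := by exact_mod_cast hB0
  have hNr0 : (0 : ℝ) < N := by exact_mod_cast hNpos
  have hL1 : Real.log n ≤ 19 * (J + 1) * z :=
    le_trans (Real.log_le_log hn0 (by exact_mod_cast hnN)) hN2
  have hlcm : (z : ℝ) * Real.log 2 - Real.log (z + 1) ≤ Real.log (lcmUpto z) := by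
    have h1 : ((2 ^ z : ℕ) : ℝ) ≤ (((z + 1) * lcmUpto z : ℕ) : ℝ) := by exact_mod_cast htwo
    have h2 : (0 : ℝ) < lcmUpto z := by exact_mod_cast lcmUpto_pos z
    have h3 := Real.log_le_log (by positivity) h1
    push_cast at h3
    rw [Real.log_pow, Real.log_mul (by positivity) h2.ne'] at h3
    linarith
  have hlogz1 : Real.log ((z : ℝ) + 1) ≤ Real.log z + 1 := by
    have h1 : (z : ℝ) + 1 ≤ 2 * z := by
      have : (1 : ℝ) ≤ z := by linarith
      linarith
    have h2 := Real.log_le_log (by positivity) h1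
    rw [Real.log_mul (by norm_num) hzr.ne'] at h2
    linarith
  have hlogB : Real.log B ≤ 2 * Real.log z := by
    have h1 : (B : ℝ) ≤ (z : ℝ) ^ 2 := by exact_mod_cast hBz
    have h2 := Real.log_le_log hBr0 h1
    rw [Real.log_pow] at h2
    push_cast at h2
    exact h2
  have hL1' : (z : ℝ) / 4 ≤ Real.log n := by
    have h1 : Real.log (lcmUpto z) ≤ Real.log n + Real.log B := by
      rw [← Real.log_mul hn0.ne' hBr0.ne']
      apply Real.log_le_log (by exact_mod_cast lcmUpto_pos z)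
      have h2 : lcmUpto z ≤ n * B := by omega
      exact_mod_cast h2
    have h2 : (z : ℝ) * 0.69 ≤ z * Real.log 2 := mul_le_mul_of_nonneg_left (by linarith) hzr.le
    linarith
  set L1 := Real.log n with hL1d
  have hL10 : 0 < L1 := by linarith
  have hz4 : (0 : ℝ) < (z : ℝ) / 4 := by positivity
  have hL2 : Real.log L1 ≤ 42 * w := by
    have h1 : (0 : ℝ) < 19 * ((J : ℝ) + 1) := by positivity
    have h2 : Real.log L1 ≤ Real.log (19 * (J + 1) * z) := Real.log_le_log hL10 hL1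
    rw [Real.log_mul h1.ne' hzr.ne'] at h2
    have h3 : Real.log (19 * ((J : ℝ) + 1)) ≤ 19 * ((J : ℝ) + 1) - 1 :=
      Real.log_le_sub_one_of_pos h1
    linarith
  have hL2' : (w : ℝ) ≤ Real.log L1 := by
    have h1 : Real.log ((z : ℝ) / 4) ≤ Real.log L1 := Real.log_le_log hz4 hL1'
    rw [Real.log_div hzr.ne' (by norm_num)] at h1
    have h2 : Real.log 4 = 2 * Real.log 2 := by
      rw [show (4 : ℝ) = 2 ^ 2 by norm_num, Real.log_pow]; norm_num
    linarith
  set L2 := Real.log L1 with hL2d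
  have hL20 : 0 < L2 := by linarith
  have hL3 : ((J : ℝ) + 1) / 4 ≤ Real.log L2 := by
    have h1 : Real.log w ≤ Real.log L2 := Real.log_le_log (by linarith) hL2'
    have h2 : Real.log w = J * Real.log 2 := by
      rw [hw]; push_cast; rw [Real.log_pow]
    rw [h2] at h1
    have h3 : (J : ℝ) * 0.69 ≤ J * Real.log 2 := mul_le_mul_of_nonneg_left (by linarith) (by linarith)
    linarith
  set L3 := Real.log L2 with hL3d
  have hL30 : 0 < L3 := by linarith
  have h1 : L1 * L2 ≤ (19 * (J + 1) * z) * (42 * w) :=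
    mul_le_mul hL1 hL2 hL20.le (by positivity)
  have h2 : 1 / 13000 * L1 * L2 / L3 ≤ B / 4 := by
    rw [div_le_iff₀ hL30]
    have h3 : (B : ℝ) / 4 * (((J : ℝ) + 1) / 4) ≤ B / 4 * L3 :=
      mul_le_mul_of_nonneg_left hL3 (by positivity)
    have h4 : (0 : ℝ) ≤ ((J : ℝ) + 1) * z * w := by positivity
    have h5 : 1 / 13000 * L1 * L2 ≤ (798 / 13000) * (((J : ℝ) + 1) * z * w) := by
      have h6 : 1 / 13000 * L1 * L2 = 1 / 13000 * (L1 * L2) := by ring
      have h7 : (798 / 13000) * (((J : ℝ) + 1) * z * w) =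
          1 / 13000 * ((19 * (J + 1) * z) * (42 * w)) := by ring
      rw [h6, h7]
      exact mul_le_mul_of_nonneg_left h1 (by norm_num)
    have h8 : (B : ℝ) / 4 * (((J : ℝ) + 1) / 4) = 1 / 16 * (((J : ℝ) + 1) * z * w) := by
      rw [hBr]; ring
    have h9 : (798 / 13000 : ℝ) * (((J : ℝ) + 1) * z * w) ≤ 1 / 16 * (((J : ℝ) + 1) * z * w) :=
      mul_le_mul_of_nonneg_right (by norm_num) h4
    linarith
  linarith

end Pool.Agent.DivGap
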