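import Pool.Agent.DivGap.Bohr

/-!
A window without multiples of the integers in `[B / 2, B]`.
-/

namespace Pool.Agent.DivGap

open Finset Chebyshev Nat

/-- smooth numbers divide a power of `lcm (1, …, z)` -/
theorem smooth_dvd (z b : ℕ) (hb : 1 ≤ b) (hbz : b ≤ z ^ 2)
    (hs : ∀ p : ℕ, p.Prime → p ∣ b → p ≤ z) : b ∣ lcmUpto z ^ 3 := by
  have hl := lcmUpto_ne_zero z
  rw [← Nat.factorization_le_iff_dvd (by omega) (pow_ne_zero 3 hl)]
  intro p
  by_cases hp : p.Prime
  · rw [Nat.factorization_pow, Finsupp.smul_apply, smul_eq_mul, factorization_lcmUpto z hp]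
    by_cases hpb : p ∣ b
    · have hpz := hs p hp hpb
      have ha : 1 ≤ Nat.log p z := Nat.log_pos hp.one_lt hpz
      have h1 : p ^ b.factorization p ≤ b := Nat.le_of_dvd (by omega) (Nat.ordProj_dvd b p)
      have h2 : z < p ^ (Nat.log p z + 1) := Nat.lt_pow_succ_log_self hp.one_lt z
      have h3 : z ^ 2 < (p ^ (Nat.log p z + 1)) ^ 2 := Nat.pow_lt_pow_left h2 (by norm_num)
      rw [← pow_mul] at h3
      have h4 : p ^ b.factorization p < p ^ ((Nat.log p z + 1) * 2) := by omega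
      have h5 := (Nat.pow_lt_pow_iff_right hp.one_lt).mp h4
      omega
    · rw [Nat.factorization_eq_zero_of_not_dvd hpb]
      exact Nat.zero_le _
  · rw [Nat.factorization_eq_zero_of_not_prime b hp]
    exact Nat.zero_le _

theorem window (z B N : ℕ) (hBz : B ≤ z ^ 2) (hN : lcmUpto z ^ 3 ∣ N)
    (hq : ∀ q : ℕ, q.Prime → z < q → q ≤ B → ∃ e : ℤ, (q : ℤ) ∣ (N : ℤ) - lcmUpto (B / q) * e ∧
      16 * (lcmUpto (B / q) * |e|) < q)
    (i b : ℕ) (hi1 : B < 16 * i) (hi2 : 16 * i < 7 * B) (hb1 : B ≤ 2 * b) (hb2 : b ≤ B) :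
    ¬ b ∣ N + i := by
  intro hdvd
  have hb0 : 1 ≤ b := by omega
  by_cases hsm : ∀ p : ℕ, p.Prime → p ∣ b → p ≤ z
  · have h1 : b ∣ N := (smooth_dvd z b hb0 (by omega) hsm).trans hN
    have h2 : b ∣ i := (Nat.dvd_add_right h1).mp hdvd
    have h3 := Nat.le_of_dvd (by omega) h2
    omega
  · push Not at hsm
    obtain ⟨q, hqp, hqb, hzq⟩ := hsm
    have hqB : q ≤ B := le_trans (Nat.le_of_dvd (by omega) hqb) hb2
    obtain ⟨d, rfl⟩ := hqb
    have hd0 : 1 ≤ d := Nat.pos_of_ne_zero (by rintro rfl; simp at hb0)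
    have hq0 : 0 < q := hqp.pos
    have hdB : d ≤ B / q := by
      rw [Nat.le_div_iff_mul_le hq0, mul_comm]
      exact hb2
    have hdz : d < z + 1 := by
      by_contra hcon
      push Not at hcon
      have h1 : (z + 1) * (z + 1) ≤ q * d := Nat.mul_le_mul hzq hcon
      have h2 : z ^ 2 = z * z := sq z
      nlinarith
    have hdN : d ∣ N := by
      refine (smooth_dvd z d hd0 ?_ ?_).trans hN
      · have h2 : z ^ 2 = z * z := sq z
        nlinarith
      · intro p _ hpd
        have := Nat.le_of_dvd (by omega) hpd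
        omega
    have hdi : d ∣ i := by
      have h1 : d ∣ N + i := (Dvd.intro_left q rfl).trans hdvd
      exact (Nat.dvd_add_right hdN).mp h1
    obtain ⟨e, he1, he2⟩ := hq q hqp hzq hqB
    have hdl : (d : ℤ) ∣ (lcmUpto (B / q) : ℤ) := by
      have h1 : d ∣ lcmUpto (B / q) := by
        unfold lcmUpto
        exact Finset.dvd_lcm (f := id) (Finset.mem_Icc.mpr ⟨hd0, hdB⟩)
      exact_mod_cast h1
    set l : ℤ := (lcmUpto (B / q) : ℤ) with hl
    have hl0 : 0 ≤ l := by rw [hl]; positivity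
    -- `q` divides `i + l e`
    have hqi : (q : ℤ) ∣ (i : ℤ) + l * e := by
      have h1 : (q : ℤ) ∣ ((N + i : ℕ) : ℤ) := by
        have h2 : q ∣ N + i := (Dvd.intro d rfl).trans hdvd
        exact_mod_cast h2
      have h2 : (i : ℤ) + l * e = ((N + i : ℕ) : ℤ) - ((N : ℤ) - l * e) := by push_cast; ring
      rw [h2]
      exact dvd_sub h1 he1
    obtain ⟨m, hm⟩ := hqi
    have hdm : (d : ℤ) ∣ q * m := by
      rw [← hm]
      exact dvd_add (by exact_mod_cast hdi) (Dvd.dvd.mul_right hdl e)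
    have hcop : IsCoprime (d : ℤ) (q : ℤ) := by
      rw [Nat.isCoprime_iff_coprime]
      rw [Nat.coprime_comm, hqp.coprime_iff_not_dvd]
      intro h1
      have := Nat.le_of_dvd (by omega) h1
      omega
    have hdm2 : (d : ℤ) ∣ m := hcop.dvd_of_dvd_mul_left hdm
    have habs : |l * e| * 16 < q := by
      rw [abs_mul, abs_of_nonneg hl0]
      linarith
    have hle1 := neg_abs_le (l * e)
    have hle2 := le_abs_self (l * e)
    have hBq : (q : ℤ) ≤ B := by exact_mod_cast hqB
    have hi1' : (B : ℤ) < 16 * i := by exact_mod_cast hi1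
    have hi2' : 16 * (i : ℤ) < 7 * B := by exact_mod_cast hi2
    have hb1' : (B : ℤ) ≤ 2 * (q * d) := by exact_mod_cast hb1
    -- `i + l e` is positive and less than `B / 2`
    have hpos : 0 < (i : ℤ) + l * e := by linarith
    have hlt : 2 * ((i : ℤ) + l * e) < B := by linarith
    rw [hm] at hpos hlt
    have hq0' : (0 : ℤ) < q := by exact_mod_cast hq0
    have hm0 : 0 < m := by
      by_contra hcon
      push Not at hcon
      have : (q : ℤ) * m ≤ 0 := mul_nonpos_of_nonneg_of_nonpos hq0'.le hcon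
      linarith
    have hdm3 : (d : ℤ) ≤ m := Int.le_of_dvd hm0 hdm2
    have h6 : (q : ℤ) * d ≤ q * m := mul_le_mul_of_nonneg_left hdm3 hq0'.le
    linarith

end Pool.Agent.DivGap
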