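import Pool.Agent.DivGap.Gaps
import Pool.Agent.DivGap.Window

/-!
From a window without multiples of `[B / 2, B]` to a gap.
-/

namespace Pool.Agent.DivGap

open Finset Classical

theorem exists_pair (k n s t : ℕ) (hst : s ≤ t) (h1 : ∃ x ∈ A k n, x < s) (h2 : ∃ y ∈ A k n, t < y)
    (h3 : ∀ m, s ≤ m → m ≤ t → m ∉ A k n) : ∃ q ∈ gapPairs k n, q.1 < s ∧ t < q.2 := by
  obtain ⟨x, hx, hxs⟩ := h1
  obtain ⟨y, hy, hyt⟩ := h2
  have hne1 : ((A k n).filter (fun c => c < s)).Nonempty := ⟨x, Finset.mem_filter.mpr ⟨hx, hxs⟩⟩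
  have hne2 : ((A k n).filter (fun c => t < c)).Nonempty := ⟨y, Finset.mem_filter.mpr ⟨hy, hyt⟩⟩
  set a := ((A k n).filter (fun c => c < s)).max' hne1 with ha
  set b := ((A k n).filter (fun c => t < c)).min' hne2 with hb
  have ha' := Finset.mem_filter.mp (Finset.max'_mem _ hne1)
  have hb' := Finset.mem_filter.mp (Finset.min'_mem _ hne2)
  rw [← ha] at ha'
  rw [← hb] at hb'
  refine ⟨(a, b), ?_, ha'.2, hb'.2⟩
  refine Finset.mem_filter.mpr ⟨Finset.mem_product.mpr ⟨ha'.1, hb'.1⟩, ?_, ?_⟩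
  · show a < b
    omega
  · rintro c hc ⟨hac, hcb⟩
    simp only at hac hcb
    by_cases hcs : c < s
    · have h4 : c ∈ (A k n).filter (fun c => c < s) := Finset.mem_filter.mpr ⟨hc, hcs⟩
      have := Finset.le_max' _ c h4
      rw [← ha] at this
      omega
    · by_cases hct : t < c
      · have h4 : c ∈ (A k n).filter (fun c => t < c) := Finset.mem_filter.mpr ⟨hc, hct⟩
        have := Finset.min'_le _ c h4
        rw [← hb] at this
        omega
      · exact h3 c (by omega) (by omega) hc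

theorem gap_of_window (B N : ℕ) (hB : 16 ≤ B) (hN : B ^ 3 ≤ N)
    (hwin : ∀ i b : ℕ, B < 16 * i → 16 * i < 7 * B → B ≤ 2 * b → b ≤ B → ¬ b ∣ N + i)
    (k : ℕ) (hk : 2 ≤ k) : ∃ q ∈ gapPairs k (N / B + 1), B ≤ 4 * (q.2 - q.1) := by
  have hB0 : 0 < B := by omega
  have g1 := Nat.div_add_mod N B
  have g2 := Nat.mod_lt N hB0
  have g3 := Nat.div_mul_le_self N B
  have g4 : B * B ≤ N / B := by
    rw [Nat.le_div_iff_mul_le hB0]
    calc B * B * B = B ^ 3 := by ring
      _ ≤ N := hN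
  generalize N / B = M at g1 g3 g4 ⊢
  generalize N % B = R at g1 g2
  set n := M + 1 with hn
  have h1 : N < n * B := by
    have h4 : n * B = B * M + B := by rw [hn]; ring
    omega
  have h2 : (n - 1) * B ≤ N := by
    have h3 : n - 1 = M := by omega
    rw [h3]
    exact g3
  have hnB : B * B + 1 ≤ n := by omega
  have hBB : 16 * B ≤ B * B := Nat.mul_le_mul_right B hB
  have hnB2 : (n - 1) * B + B = n * B := by
    have h4 : n = (n - 1) + 1 := by omega
    conv_rhs => rw [h4]
    ring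
  have hfree : ∀ i : ℕ, B < 16 * i → 16 * i < 7 * B → ¬ HasDiv n (N + i) := by
    rintro i hi1 hi2 ⟨d, hd1, hd2, b, hb⟩
    -- `N + i = d * b`
    apply hwin i b hi1 hi2 ?_ ?_ ⟨d, by rw [hb]; ring⟩
    · by_contra hcon
      push Not at hcon
      have h4 : 2 * (d * b) ≤ (2 * n) * (B - 1) := by
        have h5 : 2 * b ≤ B - 1 := by omega
        calc 2 * (d * b) = d * (2 * b) := by ring
          _ ≤ (2 * n) * (B - 1) := Nat.mul_le_mul hd2.le h5
      have h6 : n * (B - 1) + n = n * B := by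
        have h7 : B = (B - 1) + 1 := by omega
        conv_rhs => rw [h7]
        ring
      have h8 : (2 * n) * (B - 1) = 2 * (n * (B - 1)) := by ring
      omega
    · by_contra hcon
      push Not at hcon
      have h4 : (n + 1) * (B + 1) ≤ d * b := Nat.mul_le_mul hd1 hcon
      have h5 : (n + 1) * (B + 1) = n * B + n + B + 1 := by ring
      omega
  have hA : ∀ m, N + (B / 16 + 1) ≤ m → m ≤ N + (7 * B - 1) / 16 → m ∉ A k n := by
    intro m hm1 hm2 hm
    obtain ⟨i, rfl⟩ : ∃ i, m = N + i := ⟨m - N, by omega⟩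
    exact hfree i (by omega) (by omega) (Finset.mem_filter.mp hm).2
  have hnk : n ^ 2 ≤ n ^ k := Nat.pow_le_pow_right (by omega) hk
  have hn2 : n ^ 2 = n * n := sq n
  have hnn : 2 * n ≤ n * n := Nat.mul_le_mul_right n (by omega)
  obtain ⟨q, hq, hq1, hq2⟩ := exists_pair k n (N + (B / 16 + 1)) (N + (7 * B - 1) / 16) (by omega)
    ⟨n + 1, Finset.mem_filter.mpr ⟨Finset.mem_Icc.mpr ⟨by omega, by omega⟩,
      n + 1, by omega, by omega, dvd_refl _⟩, by
        have h4 : (n - 1) * 2 ≤ (n - 1) * B := Nat.mul_le_mul_left _ (by omega)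
        omega⟩
    ⟨(n + 1) * (B + 1), Finset.mem_filter.mpr ⟨Finset.mem_Icc.mpr ⟨by nlinarith, by
        have h4 : (n + 1) * (B + 1) ≤ (n + 1) * (n - 1) := Nat.mul_le_mul_left _ (by omega)
        have h5 : (n + 1) * (n - 1) + 1 = n * n := by
          have h6 : n = (n - 1) + 1 := by omega
          set r := n - 1 with hr
          rw [h6]
          ring
        omega⟩,
      n + 1, by omega, by omega, Dvd.intro _ rfl⟩, by
        have h5 : (n + 1) * (B + 1) = n * B + n + B + 1 := by ring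
        omega⟩ hA
  refine ⟨q, hq, by omega⟩

end Pool.Agent.DivGap
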