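import Pool.Agent.DivGap.Var

/-!
Large deviation bound: the number of `x` for which no prime of several groups has a multiple in
`(x, x + H]`.
-/

namespace Pool.Agent.DivGap

open Finset

theorem prod_ap {j s : ℕ} (p : Fin j → Fin s → ℕ) (hp : ∀ i t, (p i t).Prime)
    (hinj : ∀ i t i' t', p i t = p i' t' → i = i' ∧ t = t') (F : Fin j → ℕ → ℝ) (e K : Fin j → ℝ)
    (hF : ∀ i, Mult (F i) (∏ t, p i t) (e i) (K i)) (S : Finset (Fin j)) :
    AP (fun x => ∏ i ∈ S, F i x) (∏ i ∈ S, ∏ t, p i t) (∏ i ∈ S, e i) (∏ i ∈ S, K i) := by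
  classical
  induction S using Finset.induction_on with
  | empty => simpa using ap_one
  | insert i S hi ih =>
    simp only [Finset.prod_insert hi]
    have hc : Nat.Coprime (∏ i ∈ S, ∏ t, p i t) (∏ t, p i t) := by
      apply Nat.Coprime.prod_left
      intro i' hi'
      apply Nat.Coprime.prod_left
      intro t' _
      apply Nat.Coprime.prod_right
      intro t _
      rw [Nat.coprime_primes (hp i' t') (hp i t)]
      intro h
      have := (hinj i' t' i t h).1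
      subst this
      exact hi hi'
    have h := hF i _ _ _ _ hc ih
    have e1 : (fun x => (∏ i ∈ S, F i x) * F i x) = fun x => F i x * ∏ i ∈ S, F i x := by
      funext x; ring
    rw [e1, mul_comm (∏ i ∈ S, ∏ t, p i t), mul_comm (∏ i ∈ S, e i),
      mul_comm (∏ i ∈ S, K i)] at h
    exact h

theorem count_le {j s : ℕ} (H a Z : ℕ) (p : Fin j → Fin s → ℕ) (hp : ∀ i t, (p i t).Prime)
    (hinj : ∀ i t i' t', p i t = p i' t' → i = i' ∧ t = t') (hH : ∀ i t, H < p i t)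
    (B : Finset ℕ) (hB : B ⊆ Ico a (a + Z))
    (hbad : ∀ x ∈ B, ∀ i t h, 1 ≤ h → h ≤ H → ¬ p i t ∣ x + h) :
    (B.card : ℝ) * ∏ i, (mu H (p i)) ^ 2 ≤
      Z * (∏ i, mu H (p i)) + (s * H + 4 * ((s : ℝ) * H) ^ 2) ^ j := by
  have h1 : ∀ i, ∃ e K : ℝ, Mult (fun x => ((∑ t, w H (p i t) x) - mu H (p i)) ^ 2)
      (∏ t, p i t) e K ∧ 0 ≤ e ∧ e ≤ mu H (p i) ∧ 0 ≤ K ∧ K ≤ s * H + 4 * ((s : ℝ) * H) ^ 2 :=
    fun i => group_mult H (p i) (hp i) (hH i) (fun t t' h => (hinj i t i t' h).2)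
  choose e K hM he0 he1 hK0 hK1 using h1
  have h2 := prod_ap p hp hinj (fun i x => ((∑ t, w H (p i t) x) - mu H (p i)) ^ 2) e K hM
    Finset.univ
  have h3 := h2 1 0 a Z one_pos (Nat.coprime_one_left _)
  have h4 : (∑ x ∈ Ico a (a + Z), if x ≡ 0 [MOD 1] then
      ∏ i, ((∑ t, w H (p i t) x) - mu H (p i)) ^ 2 else 0) =
      ∑ x ∈ Ico a (a + Z), ∏ i, ((∑ t, w H (p i t) x) - mu H (p i)) ^ 2 := by
    apply Finset.sum_congr rfl
    intro x _
    rw [if_pos (Nat.modEq_one)]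
  simp only [h4, Nat.cast_one, div_one] at h3
  have h5 := (abs_le.mp h3).2
  have h6 : (B.card : ℝ) * ∏ i, (mu H (p i)) ^ 2 ≤
      ∑ x ∈ Ico a (a + Z), ∏ i, ((∑ t, w H (p i t) x) - mu H (p i)) ^ 2 := by
    calc (B.card : ℝ) * ∏ i, (mu H (p i)) ^ 2 = ∑ x ∈ B, ∏ i, (mu H (p i)) ^ 2 := by
          rw [Finset.sum_const, nsmul_eq_mul]
      _ = ∑ x ∈ B, ∏ i, ((∑ t, w H (p i t) x) - mu H (p i)) ^ 2 := by
          apply Finset.sum_congr rfl
          intro x hx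
          apply Finset.prod_congr rfl
          intro i _
          have h7 : (∑ t, w H (p i t) x) = 0 := by
            apply Finset.sum_eq_zero
            intro t _
            unfold w
            apply Finset.sum_eq_zero
            intro h hh
            have hh' := Finset.mem_Icc.mp hh
            rw [if_neg (hbad x hx i t h hh'.1 hh'.2)]
          rw [h7]
          ring
      _ ≤ _ := Finset.sum_le_sum_of_subset_of_nonneg hB
          (fun x _ _ => Finset.prod_nonneg (fun i _ => sq_nonneg _))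
  have h7 : (∏ i, e i) ≤ ∏ i, mu H (p i) := Finset.prod_le_prod (fun i _ => he0 i) (fun i _ => he1 i)
  have h8 : (∏ i, K i) ≤ (s * H + 4 * ((s : ℝ) * H) ^ 2) ^ j := by
    calc (∏ i, K i) ≤ ∏ _i : Fin j, (s * H + 4 * ((s : ℝ) * H) ^ 2) :=
          Finset.prod_le_prod (fun i _ => hK0 i) (fun i _ => hK1 i)
      _ = _ := by rw [Finset.prod_const, Finset.card_univ, Fintype.card_fin]
  have h9 : (Z : ℝ) * (∏ i, e i) ≤ Z * ∏ i, mu H (p i) :=
    mul_le_mul_of_nonneg_left h7 (Nat.cast_nonneg Z)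
  linarith

theorem bad_le {j s n : ℕ} (H a Z : ℕ) (hn : 1 ≤ n) (hs : 1 ≤ s) (hH1 : 1 ≤ H) (hHn : H ≤ n)
    (p : Fin j → Fin s → ℕ) (hp : ∀ i t, (p i t).Prime)
    (hinj : ∀ i t i' t', p i t = p i' t' → i = i' ∧ t = t') (hpn : ∀ i t, n < p i t)
    (hpn2 : ∀ i t, p i t < 2 * n)
    (B : Finset ℕ) (hB : B ⊆ Ico a (a + Z))
    (hbad : ∀ x ∈ B, ∀ i t h, 1 ≤ h → h ≤ H → ¬ p i t ∣ x + h) :
    (B.card : ℝ) ≤ Z * (2 * n / (s * H)) ^ j + (20 * (n : ℝ) ^ 2) ^ j := by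
  have h1 := count_le H a Z p hp hinj (fun i t => lt_of_le_of_lt hHn (hpn i t)) B hB hbad
  have hnr : (1 : ℝ) ≤ n := by exact_mod_cast hn
  have hsr : (1 : ℝ) ≤ s := by exact_mod_cast hs
  have hHr : (1 : ℝ) ≤ H := by exact_mod_cast hH1
  set c : ℝ := s * H / (2 * n) with hc
  have hc0 : 0 < c := by rw [hc]; positivity
  have hmu : ∀ i, c ≤ mu H (p i) := by
    intro i
    unfold mu
    calc c = ∑ _t : Fin s, (H : ℝ) / (2 * n) := by
          rw [Finset.sum_const, Finset.card_univ, Fintype.card_fin, nsmul_eq_mul, hc]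
          ring
      _ ≤ ∑ t, (H : ℝ) / p i t := by
          apply Finset.sum_le_sum
          intro t _
          have h2 : (0 : ℝ) < p i t := by exact_mod_cast (hp i t).pos
          have h3 : (p i t : ℝ) ≤ 2 * n := by exact_mod_cast (hpn2 i t).le
          exact div_le_div_of_nonneg_left (by positivity) h2 h3
  set P := ∏ i, mu H (p i) with hP
  have hPc : c ^ j ≤ P := by
    calc c ^ j = ∏ _i : Fin j, c := by rw [Finset.prod_const, Finset.card_univ, Fintype.card_fin]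
      _ ≤ P := Finset.prod_le_prod (fun _ _ => hc0.le) (fun i _ => hmu i)
  have hcj : 0 < c ^ j := pow_pos hc0 j
  have hP0 : 0 < P := lt_of_lt_of_le hcj hPc
  rw [Finset.prod_pow, ← hP] at h1
  have h2 : (s * H + 4 * ((s : ℝ) * H) ^ 2) ≤ 5 * ((s : ℝ) * H) ^ 2 := by
    have h3 : (1 : ℝ) ≤ s * H := by nlinarith
    nlinarith
  have h3 : (s * H + 4 * ((s : ℝ) * H) ^ 2) ^ j ≤ (5 * ((s : ℝ) * H) ^ 2) ^ j :=
    pow_le_pow_left₀ (by positivity) h2 j
  have h4 : (B.card : ℝ) ≤ Z / P + (5 * ((s : ℝ) * H) ^ 2) ^ j / P ^ 2 := by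
    have h5 : (B.card : ℝ) * P ^ 2 ≤ (Z / P + (5 * ((s : ℝ) * H) ^ 2) ^ j / P ^ 2) * P ^ 2 := by
      have h6 : (Z / P + (5 * ((s : ℝ) * H) ^ 2) ^ j / P ^ 2) * P ^ 2 =
          Z * P + (5 * ((s : ℝ) * H) ^ 2) ^ j := by
        field_simp
      rw [h6]
      linarith
    exact le_of_mul_le_mul_right h5 (by positivity)
  have h5 : (Z : ℝ) / P ≤ Z * (2 * n / (s * H)) ^ j := by
    have h6 : (2 * n / ((s : ℝ) * H)) ^ j = 1 / c ^ j := by
      rw [hc, div_pow, div_pow, one_div_div]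
    rw [h6, ← mul_div_assoc, mul_one]
    exact div_le_div_of_nonneg_left (Nat.cast_nonneg Z) hcj hPc
  have h6 : (5 * ((s : ℝ) * H) ^ 2) ^ j / P ^ 2 ≤ (20 * (n : ℝ) ^ 2) ^ j := by
    rw [div_le_iff₀ (by positivity)]
    have h7 : (5 * ((s : ℝ) * H) ^ 2) ^ j = (20 * (n : ℝ) ^ 2) ^ j * (c ^ j) ^ 2 := by
      rw [← pow_mul, mul_comm j 2, pow_mul, ← mul_pow]
      congr 1
      rw [hc]
      field_simp
      ring
    rw [h7]
    have h8 : (c ^ j) ^ 2 ≤ P ^ 2 := pow_le_pow_left₀ hcj.le hPc 2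
    exact mul_le_mul_of_nonneg_left h8 (by positivity)
  linarith

end Pool.Agent.DivGap
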