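import Pool.Agent.DivGap.Pair

/-!
The sizes in the lower bound for the largest gap.
-/

namespace Pool.Agent.DivGap

open Finset Chebyshev Nat

theorem log_lcmUpto_le (m : ℕ) : Real.log (lcmUpto m) ≤ 6 * m := by
  rw [← psi_eq_log_lcmUpto]
  have h1 := psi_le_const_mul_self (x := (m : ℝ)) (by positivity)
  have h2 : Real.log 4 ≤ 2 := by
    have h3 : Real.log 4 = 2 * Real.log 2 := by
      rw [show (4 : ℝ) = 2 ^ 2 by norm_num, Real.log_pow]; norm_num
    have := Real.log_two_lt_d9
    linarith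
  have h4 : (0 : ℝ) ≤ m := by positivity
  nlinarith

theorem theta_le (m : ℕ) : theta (m : ℝ) ≤ 1.4 * m := by
  have h1 := theta_le_log4_mul_x (x := (m : ℝ)) (by positivity)
  have h3 : Real.log 4 = 2 * Real.log 2 := by
    rw [show (4 : ℝ) = 2 ^ 2 by norm_num, Real.log_pow]; norm_num
  have h2 := Real.log_two_lt_d9
  have h4 : (0 : ℝ) ≤ m := by positivity
  nlinarith

/-- the primes in `(a, b]` -/
def Pr (a b : ℕ) : Finset ℕ := (Ioc a b).filter Nat.Prime

theorem card_Pr_le (z a b : ℕ) (hz : 2 ≤ z) (hza : z ≤ a) :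
    ((Pr a b).card : ℝ) * Real.log z ≤ 1.4 * b := by
  refine le_trans ?_ (theta_le b)
  have e : theta (b : ℝ) = ∑ p ∈ (Ioc 0 b).filter Nat.Prime, Real.log p := by
    unfold theta
    rw [Nat.floor_natCast]
  rw [e]
  calc ((Pr a b).card : ℝ) * Real.log z = ∑ p ∈ Pr a b, Real.log z := by
        rw [Finset.sum_const, nsmul_eq_mul]
    _ ≤ ∑ p ∈ Pr a b, Real.log p := by
        apply Finset.sum_le_sum
        intro p hp
        have h1 := Finset.mem_Ioc.mp (Finset.mem_filter.mp hp).1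
        apply Real.log_le_log (by exact_mod_cast (by omega : 0 < z))
        exact_mod_cast (by omega : z ≤ p)
    _ ≤ ∑ p ∈ (Ioc 0 b).filter Nat.Prime, Real.log p := by
        apply Finset.sum_le_sum_of_subset_of_nonneg
        · intro p hp
          have h1 := Finset.mem_filter.mp hp
          have h2 := Finset.mem_Ioc.mp h1.1
          exact Finset.mem_filter.mpr ⟨Finset.mem_Ioc.mpr ⟨by omega, h2.2⟩, h1.2⟩
        · intro p hp _
          have h1 := (Finset.mem_filter.mp hp).2
          exact Real.log_nonneg (by exact_mod_cast h1.one_lt.le)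

theorem sum_inv_le (z : ℕ) (hz : 2 ≤ z) (j : ℕ) :
    (∑ q ∈ Pr z (2 ^ j * z), (1 : ℝ) / q) * Real.log z ≤ 2.8 * j := by
  induction j with
  | zero => simp [Pr]
  | succ j ih =>
    have hle : z ≤ 2 ^ j * z := Nat.le_mul_of_pos_left z (by positivity)
    have hle2 : 2 ^ j * z ≤ 2 ^ (j + 1) * z := Nat.mul_le_mul_right z (Nat.pow_le_pow_right (by norm_num) (by omega))
    have h1 : Pr z (2 ^ (j + 1) * z) = Pr z (2 ^ j * z) ∪ Pr (2 ^ j * z) (2 ^ (j + 1) * z) := by
      unfold Pr
      rw [← Finset.filter_union, Finset.Ioc_union_Ioc_eq_Ioc hle hle2]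
    have h2 : Disjoint (Pr z (2 ^ j * z)) (Pr (2 ^ j * z) (2 ^ (j + 1) * z)) := by
      rw [Finset.disjoint_left]
      intro p hp hp'
      have h3 := Finset.mem_Ioc.mp (Finset.mem_filter.mp hp).1
      have h4 := Finset.mem_Ioc.mp (Finset.mem_filter.mp hp').1
      omega
    rw [h1, Finset.sum_union h2, add_mul]
    have hz0 : (0 : ℝ) < z := by exact_mod_cast (by omega : 0 < z)
    have h5 : (∑ q ∈ Pr (2 ^ j * z) (2 ^ (j + 1) * z), (1 : ℝ) / q) * Real.log z ≤ 2.8 := by
      have h6 : (∑ q ∈ Pr (2 ^ j * z) (2 ^ (j + 1) * z), (1 : ℝ) / q) ≤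
          ((Pr (2 ^ j * z) (2 ^ (j + 1) * z)).card : ℝ) * (1 / (2 ^ j * z)) := by
        rw [← nsmul_eq_mul]
        apply Finset.sum_le_card_nsmul
        intro p hp
        have h4 := Finset.mem_Ioc.mp (Finset.mem_filter.mp hp).1
        apply one_div_le_one_div_of_le (by positivity)
        have : ((2 ^ j * z : ℕ) : ℝ) ≤ p := by exact_mod_cast h4.1.le
        push_cast at this
        exact this
      have h7 := card_Pr_le z (2 ^ j * z) (2 ^ (j + 1) * z) hz hle
      have hlog : 0 ≤ Real.log z := Real.log_nonneg (by exact_mod_cast (by omega : 1 ≤ z))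
      calc (∑ q ∈ Pr (2 ^ j * z) (2 ^ (j + 1) * z), (1 : ℝ) / q) * Real.log z
          ≤ ((Pr (2 ^ j * z) (2 ^ (j + 1) * z)).card : ℝ) * (1 / (2 ^ j * z)) * Real.log z :=
            mul_le_mul_of_nonneg_right h6 hlog
        _ = (((Pr (2 ^ j * z) (2 ^ (j + 1) * z)).card : ℝ) * Real.log z) * (1 / (2 ^ j * z)) := by
            ring
        _ ≤ (1.4 * ((2 ^ (j + 1) * z : ℕ) : ℝ)) * (1 / (2 ^ j * z)) :=
            mul_le_mul_of_nonneg_right h7 (by positivity)
        _ = 2.8 := by
            push_cast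
            field_simp
            ring
    push_cast
    linarith

theorem div_div_le (q a : ℕ) (ha : 1 ≤ a) (haq : a ≤ q) : q / (q / a) + 1 ≤ 2 * a := by
  have h1 : 1 ≤ q / a := (Nat.le_div_iff_mul_le (by omega)).mpr (by omega)
  have h2 := Nat.div_add_mod q a
  have h3 := Nat.mod_lt q (by omega : 0 < a)
  have h4 : q / (q / a) * (q / a) ≤ q := Nat.div_mul_le_self _ _
  set h := q / a with hh
  by_contra hcon
  push Not at hcon
  have h5 : 2 * a * h ≤ q / h * h := Nat.mul_le_mul_right h (by omega)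
  have h6 : q < a * h + a := by omega
  have h7 : a ≤ a * h := Nat.le_mul_of_pos_right a (by omega)
  have h8 : 2 * a * h = a * h + a * h := by ring
  omega

theorem coprime_lam (m q : ℕ) (hq : q.Prime) (hm : m < q) : Nat.Coprime (lcmUpto m) q := by
  rw [Nat.coprime_comm, hq.coprime_iff_not_dvd]
  intro h1
  have h2 : 1 ≤ (lcmUpto m).factorization q :=
    (hq.dvd_iff_one_le_factorization (lcmUpto_ne_zero m)).mp h1
  rw [factorization_lcmUpto m hq, Nat.log_of_lt hm] at h2
  omega

/-- the existence of the window, with the size of `N` -/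
theorem exists_window (J : ℕ) (hJ : 1 ≤ J) : ∃ z B N : ℕ, z = 2 ^ (32 * 2 ^ J) ∧ B = 2 ^ J * z ∧
    (∀ i b : ℕ, B < 16 * i → 16 * i < 7 * B → B ≤ 2 * b → b ≤ B → ¬ b ∣ N + i) ∧
    lcmUpto z ≤ N ∧
    Real.log N ≤ 19 * (J + 1) * z := by
  set w := 2 ^ J with hw
  set z := 2 ^ (32 * w) with hz
  set B := w * z with hB
  have hw1 : 1 ≤ w := Nat.one_le_two_pow
  have hwr : (1 : ℝ) ≤ w := by exact_mod_cast hw1
  have hwz : w ≤ z := by
    have h1 : w < 2 ^ w := Nat.lt_two_pow_self
    have h2 : 2 ^ w ≤ 2 ^ (32 * w) := Nat.pow_le_pow_right (by norm_num) (by omega)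
    omega
  have hz2 : 2 ≤ z := by
    have : 2 ^ 1 ≤ 2 ^ (32 * w) := Nat.pow_le_pow_right (by norm_num) (by omega)
    omega
  have hBz : B ≤ z ^ 2 := by
    rw [sq]
    exact Nat.mul_le_mul_right z hwz
  have hzr : (0 : ℝ) < z := by exact_mod_cast (by omega : 0 < z)
  have hlogz : Real.log z = 32 * w * Real.log 2 := by
    rw [hz]
    push_cast
    rw [Real.log_pow]
    push_cast
    ring
  have hl2 := Real.log_two_gt_d9
  have hl2' := Real.log_two_lt_d9
  have hLz : 22 * (w : ℝ) ≤ Real.log z := by rw [hlogz]; nlinarith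
  have hLz0 : 0 < Real.log z := by linarith
  set S := Pr z B with hS
  set lam : ℕ → ℕ := fun q => lcmUpto (B / q) with hlam
  have hlam1 : ∀ q, 1 ≤ lam q := fun q => lcmUpto_pos _
  have hSm : ∀ q ∈ S, q.Prime ∧ z < q ∧ q ≤ B := by
    intro q hq
    have h1 := Finset.mem_filter.mp hq
    have h2 := Finset.mem_Ioc.mp h1.1
    exact ⟨h1.2, h2.1, h2.2⟩
  have hBq : ∀ q, z < q → B / q ≤ w := by
    intro q hq
    have h1 : B / q < w + 1 := by
      rw [Nat.div_lt_iff_lt_mul (by omega)]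
      calc B = w * z := rfl
        _ < (w + 1) * q := by nlinarith
    omega
  have h16 : ∀ q, z < q → 16 * lam q ≤ q := by
    intro q hq
    have h1 : Real.log (lam q) ≤ 6 * w := by
      have h2 := log_lcmUpto_le (B / q)
      have h3 : ((B / q : ℕ) : ℝ) ≤ w := by exact_mod_cast hBq q hq
      simp only [hlam]
      linarith
    have h4 : (0 : ℝ) < lam q := by exact_mod_cast hlam1 q
    have h5 : Real.log (16 * lam q) ≤ Real.log z := by
      rw [Real.log_mul (by norm_num) h4.ne']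
      have h6 : Real.log 16 = 4 * Real.log 2 := by
        rw [show (16 : ℝ) = 2 ^ 4 by norm_num, Real.log_pow]; norm_num
      rw [h6]
      nlinarith
    have h7 : (16 * lam q : ℝ) ≤ z := (Real.log_le_log_iff (by positivity) hzr).mp h5
    have h8 : 16 * lam q ≤ z := by exact_mod_cast h7
    omega
  set T := ∏ q ∈ S, 32 * lam q with hT
  obtain ⟨u, hu1, huT, hu⟩ := bohr S lam (fun q => q / (16 * lam q)) (lcmUpto z ^ 3) T
    (fun q hq => (hSm q hq).1.one_lt)
    (fun q hq => (Nat.le_div_iff_mul_le (by have := hlam1 q; omega)).mpr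
      (by rw [one_mul]; exact h16 q (hSm q hq).2.1))
    (fun q hq => coprime_lam _ q (hSm q hq).1 (by
      have h1 := hBq q (hSm q hq).2.1
      have h2 := (hSm q hq).2.1
      omega))
    (by
      apply Finset.prod_le_prod' 
      intro q hq
      have h1 := div_div_le q (16 * lam q) (by have := hlam1 q; omega) (h16 q (hSm q hq).2.1)
      have h2 : 2 * (16 * lam q) = 32 * lam q := by ring
      omega)
  refine ⟨z, B, u * lcmUpto z ^ 3, rfl, rfl, ?_, ?_, ?_⟩
  · intro i b hi1 hi2 hb1 hb2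
    apply window z B (u * lcmUpto z ^ 3) hBz (Dvd.intro_left u rfl) ?_ i b hi1 hi2 hb1 hb2
    intro q hqp hzq hqB
    obtain ⟨e, he1, he2⟩ := hu q (Finset.mem_filter.mpr ⟨Finset.mem_Ioc.mpr ⟨hzq, hqB⟩, hqp⟩)
    refine ⟨e, ?_, ?_⟩
    · push_cast at he2 ⊢
      exact he2
    · have h1 : (lam q : ℤ) * ((q / (16 * lam q) : ℕ) : ℤ) * 16 ≤ q := by
        have h2 : lam q * (q / (16 * lam q)) * 16 ≤ q := by
          calc lam q * (q / (16 * lam q)) * 16 = q / (16 * lam q) * (16 * lam q) := by ring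
            _ ≤ q := Nat.div_mul_le_self _ _
        exact_mod_cast h2
      have h3 : (0 : ℤ) < lam q := by exact_mod_cast hlam1 q
      have h4 : (lam q : ℤ) * |e| < lam q * ((q / (16 * lam q) : ℕ) : ℤ) :=
        mul_lt_mul_of_pos_left he1 h3
      have h5 : (lam q : ℤ) = (lcmUpto (B / q) : ℤ) := rfl
      rw [← h5]
      linarith
  · have h1 : lcmUpto z ≤ lcmUpto z ^ 3 := Nat.le_self_pow (by norm_num) _
    calc lcmUpto z ≤ 1 * lcmUpto z ^ 3 := by rw [one_mul]; exact h1
      _ ≤ u * lcmUpto z ^ 3 := Nat.mul_le_mul_right _ hu1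
  · -- the size
    have hu0 : (0 : ℝ) < u := by exact_mod_cast hu1
    have hP0 : (0 : ℝ) < lcmUpto z := by exact_mod_cast lcmUpto_pos z
    have hT0 : (0 : ℝ) < T := by
      rw [hT]
      push_cast
      exact Finset.prod_pos (fun q _ => by have := hlam1 q; positivity)
    have h1 : Real.log ((u * lcmUpto z ^ 3 : ℕ) : ℝ) ≤ Real.log T + 18 * z := by
      push_cast
      rw [Real.log_mul hu0.ne' (by positivity), Real.log_pow]
      have h2 := log_lcmUpto_le z
      have h3 : Real.log u ≤ Real.log T := Real.log_le_log hu0 (by exact_mod_cast huT)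
      push_cast
      linarith
    have h2 : Real.log T ≤ 4 * S.card + 6 * B * ∑ q ∈ S, (1 : ℝ) / q := by
      rw [hT]
      push_cast
      rw [Real.log_prod (fun q _ => by have := hlam1 q; positivity)]
      have h3 : ∀ q ∈ S, Real.log (32 * (lam q : ℝ)) ≤ 4 + 6 * B * ((1 : ℝ) / q) := by
        intro q hq
        have h4 : (0 : ℝ) < lam q := by exact_mod_cast hlam1 q
        rw [Real.log_mul (by norm_num) h4.ne']
        have h6 : Real.log 32 = 5 * Real.log 2 := by
          rw [show (32 : ℝ) = 2 ^ 5 by norm_num, Real.log_pow]; norm_num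
        have h7 := log_lcmUpto_le (B / q)
        have h8 : ((B / q : ℕ) : ℝ) ≤ B / q := Nat.cast_div_le
        have h9 : Real.log (lam q) ≤ 6 * (B / q) := by
          simp only [hlam]
          linarith
        rw [h6]
        have h10 : 6 * (B : ℝ) * (1 / q) = 6 * (B / q) := by ring
        rw [h10]
        linarith
      refine (Finset.sum_le_sum h3).trans ?_
      rw [Finset.sum_add_distrib, Finset.sum_const, nsmul_eq_mul, ← Finset.mul_sum]
      linarith
    have h3 := card_Pr_le z z B hz2 le_rfl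
    have h4 := sum_inv_le z hz2 J
    rw [← hw, ← hB, ← hS] at h4
    rw [← hS] at h3
    have hBr : (B : ℝ) = w * z := by rw [hB]; push_cast; ring
    -- `card S <= 1.4 B / log z <= 0.07 z` and so on
    have h5 : (S.card : ℝ) ≤ 0.07 * z := by
      have h6 : (S.card : ℝ) * (22 * w) ≤ 1.4 * B :=
        le_trans (mul_le_mul_of_nonneg_left hLz (Nat.cast_nonneg _)) h3
      rw [hBr] at h6
      have h7 : (S.card : ℝ) * 22 ≤ 1.4 * z := by
        have h8 : ((S.card : ℝ) * 22) * w ≤ (1.4 * z) * w := by linarith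
        exact le_of_mul_le_mul_right h8 (by linarith)
      linarith
    have h6 : (B : ℝ) * ∑ q ∈ S, (1 : ℝ) / q ≤ 0.13 * J * z := by
      have hs0 : 0 ≤ ∑ q ∈ S, (1 : ℝ) / q := Finset.sum_nonneg (fun q _ => by positivity)
      have h7 : (∑ q ∈ S, (1 : ℝ) / q) * (22 * w) ≤ 2.8 * J :=
        le_trans (mul_le_mul_of_nonneg_left hLz hs0) h4
      have h8 : (∑ q ∈ S, (1 : ℝ) / q) * w ≤ 0.13 * J := by
        have hJ0 : (0 : ℝ) ≤ J := Nat.cast_nonneg _
        linarith
      rw [hBr]
      calc (w : ℝ) * z * ∑ q ∈ S, (1 : ℝ) / q = ((∑ q ∈ S, (1 : ℝ) / q) * w) * z := by ring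
        _ ≤ (0.13 * J) * z := mul_le_mul_of_nonneg_right h8 hzr.le
    have hJ0 : (0 : ℝ) ≤ J := Nat.cast_nonneg _
    have h7 : Real.log T ≤ 0.28 * z + 0.78 * J * z := by linarith
    have h8 : (0 : ℝ) ≤ J * z := by positivity
    have h9 : (19 : ℝ) * (J + 1) * z = 19 * (J * z) + 19 * z := by ring
    rw [h9]
    linarith

end Pool.Agent.DivGap
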