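import Pool.Agent.DivGap.AP

/-!
The variance of the number of multiples of the primes of a group in a short interval, and the
product of the variances over several groups.
-/

namespace Pool.Agent.DivGap

open Finset

/-- the number of multiples of `p` in `(x, x + H]` -/
noncomputable def w (H p x : ℕ) : ℝ := ∑ h ∈ Icc 1 H, if p ∣ x + h then 1 else 0

theorem mult_w (H p : ℕ) (hp : 0 < p) : Mult (fun x => w H p x) p (H / p) H := by
  have h1 : ∀ h x : ℕ, (p ∣ x + h) ↔ x ≡ (p - 1) * h [MOD p] := by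
    intro h x
    obtain ⟨q, rfl⟩ : ∃ q, p = q + 1 := ⟨p - 1, by omega⟩
    rw [Nat.add_sub_cancel]
    constructor
    · intro hd
      have h2 : x + h ≡ q * h + h [MOD (q + 1)] := by
        have h3 : q * h + h = (q + 1) * h := by ring
        rw [h3]
        exact ((Nat.modEq_zero_iff_dvd).mpr hd).trans
          ((Nat.modEq_zero_iff_dvd).mpr (dvd_mul_right _ _)).symm
      exact Nat.ModEq.add_right_cancel' h h2
    · intro hx
      have h2 := hx.add_right h
      have h3 : q * h + h = (q + 1) * h := by ring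
      rw [h3] at h2
      exact (Nat.modEq_zero_iff_dvd).mp
        (h2.trans ((Nat.modEq_zero_iff_dvd).mpr (dvd_mul_right _ _)))
  have h2 := Mult.sum (Icc 1 H) (fun h x => if x ≡ (p - 1) * h [MOD p] then (1 : ℝ) else 0) p
    (fun _ => 1 / p) (fun _ => 1) (fun h _ => mult_ind p ((p - 1) * h) hp)
  have e1 : (∑ _h ∈ Icc 1 H, (1 : ℝ) / p) = H / p := by
    rw [Finset.sum_const, Nat.card_Icc, nsmul_eq_mul]
    simp
    ring
  have e2 : (∑ _h ∈ Icc 1 H, (1 : ℝ)) = H := by
    rw [Finset.sum_const, Nat.card_Icc, nsmul_eq_mul]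
    simp
  rw [e1, e2] at h2
  have e3 : (fun x => w H p x) =
      fun x => ∑ h ∈ Icc 1 H, if x ≡ (p - 1) * h [MOD p] then (1 : ℝ) else 0 := by
    funext x
    unfold w
    apply Finset.sum_congr rfl
    intro h _
    by_cases hd : p ∣ x + h
    · rw [if_pos hd, if_pos ((h1 h x).mp hd)]
    · rw [if_neg hd, if_neg (fun h3 => hd ((h1 h x).mpr h3))]
  rw [e3]
  exact h2

theorem w_sq (H p x : ℕ) (hp : H < p) : w H p x * w H p x = w H p x := by
  have h1 : w H p x = (((Icc 1 H).filter (fun h => p ∣ x + h)).card : ℝ) := by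
    unfold w
    rw [← Finset.sum_filter, Finset.sum_const, nsmul_eq_mul, mul_one]
  have h2 : ((Icc 1 H).filter (fun h => p ∣ x + h)).card ≤ 1 := by
    apply Finset.card_le_one.mpr
    intro a ha b hb
    have ha' := Finset.mem_filter.mp ha
    have hb' := Finset.mem_filter.mp hb
    have ha2 := Finset.mem_Icc.mp ha'.1
    have hb2 := Finset.mem_Icc.mp hb'.1
    by_contra hne
    rcases lt_or_gt_of_ne hne with hlt | hlt
    · have h3 : p ∣ (x + b) - (x + a) := Nat.dvd_sub hb'.2 ha'.2
      have h4 : (x + b) - (x + a) = b - a := by omega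
      rw [h4] at h3
      have := Nat.le_of_dvd (by omega) h3
      omega
    · have h3 : p ∣ (x + a) - (x + b) := Nat.dvd_sub ha'.2 hb'.2
      have h4 : (x + a) - (x + b) = a - b := by omega
      rw [h4] at h3
      have := Nat.le_of_dvd (by omega) h3
      omega
  rw [h1]
  interval_cases ((Icc 1 H).filter (fun h => p ∣ x + h)).card <;> norm_num

/-- the expected number -/
noncomputable def mu {s : ℕ} (H : ℕ) (p : Fin s → ℕ) : ℝ := ∑ t, (H : ℝ) / p t

/-- the variance of a group -/
theorem group_mult {s : ℕ} (H : ℕ) (p : Fin s → ℕ) (hp : ∀ t, (p t).Prime) (hH : ∀ t, H < p t)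
    (hinj : Function.Injective p) :
    ∃ e K : ℝ, Mult (fun x => ((∑ t, w H (p t) x) - mu H p) ^ 2) (∏ t, p t) e K ∧
      0 ≤ e ∧ e ≤ mu H p ∧ 0 ≤ K ∧ K ≤ s * H + 4 * ((s : ℝ) * H) ^ 2 := by
  classical
  set Q := ∏ t, p t with hQ
  set μ := mu H p with hμ
  have hpos : ∀ t, (0 : ℝ) < p t := fun t => by exact_mod_cast (hp t).pos
  have hq0 : ∀ t, (0 : ℝ) ≤ (H : ℝ) / p t := fun t => div_nonneg (Nat.cast_nonneg _) (hpos t).le
  have hq1 : ∀ t, (H : ℝ) / p t ≤ 1 := by
    intro t
    rw [div_le_one (hpos t)]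
    exact_mod_cast (hH t).le
  have hμ0 : 0 ≤ μ := Finset.sum_nonneg (fun t _ => hq0 t)
  have hw : ∀ t, Mult (fun x => w H (p t) x) Q (H / p t) H := fun t =>
    (mult_w H (p t) (hp t).pos).mono (Finset.dvd_prod_of_mem p (Finset.mem_univ t))
  have hww : ∀ t t', Mult (fun x => if t = t' then 0 else w H (p t) x * w H (p t') x) Q
      (if t = t' then 0 else (H / p t) * (H / p t')) (if t = t' then 0 else H * H) := by
    intro t t'
    by_cases h : t = t'
    · simp only [h, if_true]
      exact mult_zero Q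
    · simp only [h, if_false]
      have hc : Nat.Coprime (p t) (p t') :=
        (Nat.coprime_primes (hp t) (hp t')).mpr (fun h2 => h (hinj h2))
      refine ((mult_w H (p t) (hp t).pos).mul (mult_w H (p t') (hp t').pos) hc).mono ?_
      have : p t * p t' = ∏ i ∈ ({t, t'} : Finset (Fin s)), p i := by
        rw [Finset.prod_pair h]
      rw [this]
      exact Finset.prod_dvd_prod_of_subset _ _ _ (Finset.subset_univ _)
  have h1 := Mult.sum Finset.univ (fun t x => w H (p t) x) Q (fun t => (H : ℝ) / p t)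
    (fun _ => (H : ℝ)) (fun t _ => hw t)
  have h2 := Mult.sum Finset.univ
    (fun t x => ∑ t', if t = t' then 0 else w H (p t) x * w H (p t') x) Q
    (fun t => ∑ t', if t = t' then 0 else ((H : ℝ) / p t) * (H / p t'))
    (fun t => ∑ t', if t = t' then 0 else (H : ℝ) * H)
    (fun t _ => Mult.sum Finset.univ _ Q _ _ (fun t' _ => hww t t'))
  have h3 := h1.smul (-(2 * μ))
  have h4 := (mult_one Q).smul (μ ^ 2)
  have h5 := ((h1.add h2).add h3).add h4
  have e1 : (fun x => ((∑ t, w H (p t) x) - μ) ^ 2) = fun x =>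
      ((∑ t, w H (p t) x) + (∑ t, ∑ t', if t = t' then 0 else w H (p t) x * w H (p t') x)) +
        -(2 * μ) * (∑ t, w H (p t) x) + μ ^ 2 * 1 := by
    funext x
    have e2 : (∑ t, w H (p t) x) * (∑ t, w H (p t) x) = (∑ t, w H (p t) x) +
        (∑ t, ∑ t', if t = t' then 0 else w H (p t) x * w H (p t') x) := by
      rw [Finset.sum_mul_sum, ← Finset.sum_add_distrib]
      apply Finset.sum_congr rfl
      intro t _
      have e3 : ∀ t', w H (p t) x * w H (p t') x =
          (if t = t' then w H (p t) x else 0) +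
            (if t = t' then 0 else w H (p t) x * w H (p t') x) := by
        intro t'
        by_cases h : t = t'
        · subst h
          simp only [if_true, add_zero]
          exact w_sq H (p t) x (hH t)
        · simp [h]
      rw [Finset.sum_congr rfl (fun t' _ => e3 t'), Finset.sum_add_distrib]
      simp
    have e4 : ((∑ t, w H (p t) x) - μ) ^ 2 = (∑ t, w H (p t) x) * (∑ t, w H (p t) x) +
        -(2 * μ) * (∑ t, w H (p t) x) + μ ^ 2 * 1 := by ring
    rw [e4, e2]
  rw [← e1] at h5
  have hs : μ ≤ s * H := by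
    have h6 : μ ≤ ∑ _t : Fin s, (1 : ℝ) * H := by
      apply Finset.sum_le_sum
      intro t _
      rw [one_mul]
      rw [div_le_iff₀ (hpos t)]
      have h7 : (1 : ℝ) ≤ p t := by exact_mod_cast (hp t).one_lt.le
      have h8 : (0 : ℝ) ≤ H := Nat.cast_nonneg H
      nlinarith
    simpa using h6
  have hsum : (∑ t, (H : ℝ) / p t) = μ := rfl
  have hoff : (∑ t, ∑ t', if t = t' then 0 else ((H : ℝ) / p t) * (H / p t')) =
      μ ^ 2 - ∑ t, ((H : ℝ) / p t) ^ 2 := by
    have e2 : μ ^ 2 = (∑ t, ((H : ℝ) / p t) ^ 2) +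
        ∑ t, ∑ t', if t = t' then 0 else ((H : ℝ) / p t) * (H / p t') := by
      rw [sq, ← hsum, Finset.sum_mul_sum, ← Finset.sum_add_distrib]
      apply Finset.sum_congr rfl
      intro t _
      have e3 : ∀ t', ((H : ℝ) / p t) * (H / p t') =
          (if t = t' then ((H : ℝ) / p t) ^ 2 else 0) +
            (if t = t' then 0 else ((H : ℝ) / p t) * (H / p t')) := by
        intro t'
        by_cases h : t = t'
        · subst h
          simp only [if_true, add_zero, sq]
        · simp [h]
      rw [Finset.sum_congr rfl (fun t' _ => e3 t'), Finset.sum_add_distrib]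
      simp
    linarith
  have hsq : (∑ t, ((H : ℝ) / p t) ^ 2) ≤ μ := by
    rw [← hsum]
    apply Finset.sum_le_sum
    intro t _
    nlinarith [hq0 t, hq1 t]
  have hsq0 : 0 ≤ ∑ t, ((H : ℝ) / p t) ^ 2 := Finset.sum_nonneg (fun t _ => sq_nonneg _)
  have hK2 : (∑ t : Fin s, ∑ t' : Fin s, if t = t' then (0 : ℝ) else (H : ℝ) * H) ≤ (s * H) ^ 2 := by
    calc (∑ t : Fin s, ∑ t' : Fin s, if t = t' then (0 : ℝ) else (H : ℝ) * H)
        ≤ ∑ t : Fin s, ∑ t' : Fin s, (H : ℝ) * H := by
          apply Finset.sum_le_sum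
          intro t _
          apply Finset.sum_le_sum
          intro t' _
          split_ifs
          · positivity
          · exact le_refl _
      _ = (s * H) ^ 2 := by
          simp only [Finset.sum_const, Finset.card_univ, Fintype.card_fin, nsmul_eq_mul]
          ring
  have hK20 : 0 ≤ (∑ t : Fin s, ∑ t' : Fin s, if t = t' then (0 : ℝ) else (H : ℝ) * H) := by
    apply Finset.sum_nonneg
    intro t _
    apply Finset.sum_nonneg
    intro t' _
    split_ifs
    · exact le_refl _
    · positivity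
  have hK1 : (∑ _t : Fin s, (H : ℝ)) = s * H := by
    simp only [Finset.sum_const, Finset.card_univ, Fintype.card_fin, nsmul_eq_mul]
  have habs : |(-(2 * μ))| = 2 * μ := by
    rw [abs_neg, abs_of_nonneg (by positivity)]
  have habs2 : |μ ^ 2| = μ ^ 2 := abs_of_nonneg (sq_nonneg _)
  have hsH : (0 : ℝ) ≤ s * H := by positivity
  rw [hsum, hoff, hK1, habs, habs2] at h5
  refine ⟨_, _, h5, ?_, ?_, ?_, ?_⟩
  · nlinarith
  · nlinarith
  · have := mul_nonneg hμ0 hsH
    nlinarith [sq_nonneg μ]
  · have h6 : μ * (s * H) ≤ (s * H) ^ 2 := by nlinarith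
    have h7 : μ ^ 2 ≤ (s * H) ^ 2 := by nlinarith
    nlinarith

end Pool.Agent.DivGap
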